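import Pool.Agent.K3h47.Rad.Struct

/-!
# Algebraic independence and Schanuel's inequality
-/

set_option autoImplicit false

namespace Pool.Agent.K3h47.Rad

open Pool.Agent.R347.LW Finset Complex
open scoped IntermediateField.algebraAdjoinAdjoin

variable {q : ℕ → ℕ}

/-- sums of approximable numbers and combinations of logarithms -/
def IsV (q : ℕ → ℕ) (v : ℂ) : Prop := ∃ x u, Appr q x ∧ IsRL q u ∧ v = x + u

theorem IsV.sum (hq : ∀ k, 2 ≤ q k) {ι : Type*} (s : Finset ι) (r : ι → ℚ) (f : ι → ℂ)
    (hf : ∀ i ∈ s, IsV q (f i)) : IsV q (∑ i ∈ s, (r i : ℂ) * f i) := by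
  classical
  induction s using Finset.induction_on with
  | empty => exact ⟨0, 0, Appr.zero hq, IsRL.zero, by simp⟩
  | insert a s ha ih =>
    obtain ⟨x, u, hx, hu, h⟩ := ih fun i hi => hf i (mem_insert_of_mem hi)
    obtain ⟨x', u', hx', hu', h'⟩ := hf a (mem_insert_self _ _)
    rw [sum_insert ha, h, h']
    refine ⟨r a * x' + x, r a * u' + u, Appr.add hq (Appr.mul hq (Appr.rat hq _) hx') hx,
      IsRL.add (IsRL.ratMul hq hu' _) hu, by ring⟩

theorem alg_mem_E {a : ℂ} (ha : IsAlgebraic ℚ a) : a ∈ E q :=
  IntermediateField.subset_adjoin ℚ _ (Or.inl ha)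

theorem linV (hq : ∀ k, 2 ≤ q k) {ι : Type} [Fintype ι] (v : ι → ℂ) (hv : ∀ i, IsV q (v i)) :
    LinearIndependent (E q) (fun i => exp (v i)) ↔ ∀ i j, i ≠ j → v i - v j ∉ Logs := by
  classical
  constructor
  · intro h i j hij hL
    rw [Fintype.linearIndependent_iff] at h
    have hb : exp (v i - v j) ∈ E q := alg_mem_E hL
    have h1 := h (fun k => if k = i then 1 else if k = j then -⟨_, hb⟩ else 0) ?_ i
    · simp at h1
    · rw [← sum_subset (subset_univ ({i, j} : Finset ι)), sum_pair hij]
      · rw [if_pos rfl, if_neg hij.symm, if_pos rfl, one_smul, neg_smul]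
        rw [Algebra.smul_def]
        change exp (v i) + -(exp (v i - v j) * exp (v j)) = 0
        rw [← exp_add]
        simp
      · intro k _ hk
        rw [mem_insert, mem_singleton, not_or] at hk
        rw [if_neg hk.1, if_neg hk.2, zero_smul]
  · intro h
    choose x u hx hu hv using hv
    have h1 := linU hq x u hx hu (fun i j hij => by
      rw [← hv i, ← hv j]
      exact h i j hij)
    simpa only [hv] using h1

theorem algV (hq : ∀ k, 2 ≤ q k) {n : ℕ} (z : Fin n → ℂ) (hz : ∀ i, IsV q (z i)) :
    AlgebraicIndependent (E q) (fun i => exp (z i)) ↔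
      LinearIndependent ℚ (fun i => Logs.mkQ (z i)) := by
  classical
  constructor
  · intro h
    rw [Fintype.linearIndependent_iff]
    intro g hg
    -- clear denominators
    obtain ⟨v, u₀, u, hv, -, hu⟩ := common_den 0 g
    have h1 : ∑ i, (u i : ℂ) * z i ∈ Logs := by
      have h2 : ∑ i, g i • z i ∈ Logs := by
        have h3 : Logs.mkQ (∑ i, g i • z i) = 0 := by
          rw [map_sum, ← hg]
          exact sum_congr rfl fun i _ => map_smul _ _ _
        exact (Submodule.Quotient.mk_eq_zero _).1 h3
      have h4 : ∑ i, (u i : ℂ) * z i = (v : ℚ) • ∑ i, g i • z i := by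
        rw [Rat.smul_def, mul_sum]
        refine sum_congr rfl fun i _ => ?_
        rw [← hu i, Rat.smul_def]
        push_cast
        ring
      rw [h4]
      exact Submodule.smul_mem _ _ h2
    set a : E q := ⟨exp (∑ i, (u i : ℂ) * z i), alg_mem_E h1⟩ with ha
    set P : MvPolynomial (Fin n) (E q) :=
      MvPolynomial.monomial (Finsupp.equivFunOnFinite.symm fun i => (u i).toNat) 1 -
      MvPolynomial.monomial (Finsupp.equivFunOnFinite.symm fun i => (-u i).toNat) a with hP
    have hexp : ∀ m : Fin n → ℕ, ∏ i, exp (z i) ^ m i = exp (∑ i, (m i : ℂ) * z i) := by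
      intro m
      rw [exp_sum]
      exact prod_congr rfl fun i _ => (exp_nat_mul _ _).symm
    have hP0 : MvPolynomial.aeval (fun i => exp (z i)) P = 0 := by
      rw [hP, map_sub, MvPolynomial.aeval_monomial, MvPolynomial.aeval_monomial,
        Finsupp.prod_fintype _ _ (by simp), Finsupp.prod_fintype _ _ (by simp)]
      simp only [Finsupp.coe_equivFunOnFinite_symm]
      rw [hexp, hexp, map_one, one_mul]
      change exp _ - exp (∑ i, (u i : ℂ) * z i) * exp _ = 0
      rw [← exp_add, sub_eq_zero]
      congr 1
      rw [← sum_add_distrib]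
      refine sum_congr rfl fun i _ => ?_
      rw [← add_mul]
      congr 1
      have h5 : ((u i).toNat : ℤ) = u i + (-u i).toNat := by omega
      exact_mod_cast congrArg (fun t : ℤ => (t : ℂ)) h5
    have hP1 : P = 0 := by
      rw [algebraicIndependent_iff] at h
      exact h P hP0
    have hm : (Finsupp.equivFunOnFinite.symm fun i => (u i).toNat) =
        (Finsupp.equivFunOnFinite.symm fun i => (-u i).toNat) := by
      by_contra hne
      have h6 := congrArg (MvPolynomial.coeff (Finsupp.equivFunOnFinite.symm
        fun i => (u i).toNat)) hP1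
      rw [hP, MvPolynomial.coeff_sub, MvPolynomial.coeff_monomial, MvPolynomial.coeff_monomial,
        if_pos rfl, if_neg (Ne.symm hne), MvPolynomial.coeff_zero, sub_zero] at h6
      exact one_ne_zero h6
    have hm' := Finsupp.equivFunOnFinite.symm.injective hm
    intro i
    have h7 : (u i).toNat = (-u i).toNat := congrFun hm' i
    have h8 : u i = 0 := by omega
    have h9 := hu i
    rw [h8, Int.cast_zero, mul_eq_zero] at h9
    rcases h9 with h9 | h9
    · exact absurd (by exact_mod_cast h9) hv
    · exact_mod_cast h9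
  · intro h
    rw [algebraicIndependent_iff]
    intro P hP
    rw [MvPolynomial.aeval_def, MvPolynomial.eval₂_eq'] at hP
    set f : (Fin n →₀ ℕ) → ℂ := fun m => ∑ i, ((m i : ℚ) : ℂ) * z i with hf
    have hexp : ∀ m : Fin n →₀ ℕ, ∏ i, exp (z i) ^ m i = exp (f m) := by
      intro m
      rw [hf, exp_sum]
      refine prod_congr rfl fun i _ => ?_
      rw [← exp_nat_mul]
      simp
    have hli := (linV hq (ι := P.support) (fun m => f m)
      (fun m => IsV.sum hq _ _ _ fun i _ => hz i)).2 (by
        rintro ⟨m, hm⟩ ⟨m', hm'⟩ hne hL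
        apply hne
        rw [Fintype.linearIndependent_iff] at h
        have h1 := h (fun i => (m i : ℚ) - m' i) (by
          have h2 : ∑ i, ((m i : ℚ) - m' i) • z i = f m - f m' := by
            rw [hf]
            beta_reduce
            rw [← sum_sub_distrib]
            refine sum_congr rfl fun i _ => ?_
            rw [Rat.smul_def]
            push_cast
            ring
          have h3 : Logs.mkQ (∑ i, ((m i : ℚ) - m' i) • z i) = 0 := by
            rw [h2]
            exact (Submodule.Quotient.mk_eq_zero _).2 hL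
          rw [map_sum] at h3
          rw [← h3]
          exact sum_congr rfl fun i _ => (map_smul _ _ _).symm)
        apply Subtype.ext
        ext i
        have h4 := h1 i
        have h5 : (m i : ℚ) = m' i := by linarith
        exact_mod_cast h5)
    rw [Fintype.linearIndependent_iff] at hli
    have h1 := hli (fun m => P.coeff m) (by
      rw [← hP, ← Finset.sum_coe_sort P.support]
      refine sum_congr rfl fun m _ => ?_
      rw [hexp, Algebra.smul_def])
    ext m
    rw [MvPolynomial.coeff_zero]
    by_cases hm : m ∈ P.support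
    · exact congrArg _ (h1 ⟨m, hm⟩)
    · rw [MvPolynomial.notMem_support_iff.1 hm]

end Pool.Agent.K3h47.Rad
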