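import Mathlib

/-!
# Normalized traces of roots of unity
-/

set_option autoImplicit false

namespace Pool.Agent.K3h47.Rad

open Finset

/-- Parseval -/
theorem parseval {G : Type*} [Group G] [Fintype G] (m : ℕ) [NeZero m] (k : G →* (ZMod m)ˣ)
    (hk : Function.Injective k) (ψ : AddChar (ZMod m) ℂ) (hψ : ψ.IsPrimitive) :
    ‖∑ g : G, ψ (k g : ZMod m)‖ ^ 2 ≤ m := by
  classical
  set S : ZMod m → ℂ := fun a => ∑ g : G, ψ (a * (k g : ZMod m)) with hS
  have hS1 : ∀ g' : G, S (k g' : ZMod m) = ∑ g : G, ψ (k g : ZMod m) := by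
    intro g'
    rw [hS]
    refine Fintype.sum_equiv (Equiv.mulLeft g') _ _ (fun g => ?_)
    rw [Equiv.coe_mulLeft, k.map_mul, Units.val_mul]
  have h1 : ∑ a : ZMod m, S a * (starRingEnd ℂ) (S a) = (m : ℂ) * Fintype.card G := by
    have e1 : ∀ a : ZMod m, S a * (starRingEnd ℂ) (S a) =
        ∑ g : G, ∑ g' : G, ψ (a * ((k g : ZMod m) - (k g' : ZMod m))) := by
      intro a
      rw [hS, map_sum, sum_mul_sum]
      refine sum_congr rfl fun g _ => sum_congr rfl fun g' _ => ?_
      rw [← AddChar.map_neg_eq_conj, ← AddChar.map_add_eq_mul]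
      congr 1
      ring
    simp_rw [e1]
    rw [sum_comm]
    have e2 : ∀ g : G, ∑ a : ZMod m, ∑ g' : G, ψ (a * ((k g : ZMod m) - (k g' : ZMod m))) =
        (m : ℂ) := by
      intro g
      rw [sum_comm]
      have e3 : ∀ g' : G, ∑ a : ZMod m, ψ (a * ((k g : ZMod m) - (k g' : ZMod m))) =
          if g' = g then (m : ℂ) else 0 := by
        intro g'
        rw [AddChar.sum_mulShift _ hψ]
        rw [ZMod.card]
        by_cases h : g' = g
        · rw [if_pos h, h, sub_self, if_pos rfl]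
        · rw [if_neg h, if_neg]
          · simp
          · intro h2
            apply h
            apply hk
            ext
            exact (sub_eq_zero.1 h2).symm
      simp_rw [e3]
      simp
    simp_rw [e2]
    simp [mul_comm]
  have h2 : ∑ a : ZMod m, ‖S a‖ ^ 2 = (m : ℝ) * Fintype.card G := by
    have e1 : ∀ a : ZMod m, S a * (starRingEnd ℂ) (S a) = ((‖S a‖ ^ 2 : ℝ) : ℂ) := by
      intro a
      rw [Complex.mul_conj, Complex.normSq_eq_norm_sq]
    simp_rw [e1] at h1
    rw [← Complex.ofReal_sum] at h1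
    exact_mod_cast h1
  have h3 : (Fintype.card G : ℝ) * ‖∑ g : G, ψ (k g : ZMod m)‖ ^ 2 ≤ ∑ a : ZMod m, ‖S a‖ ^ 2 := by
    have hinj : Function.Injective (fun g : G => (k g : ZMod m)) := by
      intro g g' h
      apply hk
      ext
      exact h
    calc (Fintype.card G : ℝ) * ‖∑ g : G, ψ (k g : ZMod m)‖ ^ 2
        = ∑ g' : G, ‖S (k g' : ZMod m)‖ ^ 2 := by
          simp_rw [hS1]
          simp
      _ = ∑ a ∈ univ.image (fun g : G => (k g : ZMod m)), ‖S a‖ ^ 2 := by
          rw [sum_image (fun x _ y _ h => hinj h)]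
      _ ≤ _ := sum_le_sum_of_subset_of_nonneg (subset_univ _) (fun _ _ _ => by positivity)
  rw [h2] at h3
  have hG : (0 : ℝ) < Fintype.card G := by exact_mod_cast Fintype.card_pos
  have h4 : (Fintype.card G : ℝ) * ‖∑ g : G, ψ (k g : ZMod m)‖ ^ 2 ≤ Fintype.card G * m := by
    linarith
  exact le_of_mul_le_mul_left h4 hG

/-- `m ≤ φ(m) (log₂ m + 1)` -/
theorem prod_aux (s : Finset ℕ) (hs : ∀ p ∈ s, 2 ≤ p) :
    ∏ p ∈ s, p ≤ (s.card + 1) * ∏ p ∈ s, (p - 1) := by
  induction s using Finset.induction_on_max with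
  | empty => simp
  | insert a s ha ih =>
    have has : a ∉ s := fun h => lt_irrefl _ (ha a h)
    rw [prod_insert has, prod_insert has, card_insert_of_notMem has]
    have ih' := ih (fun p hp => hs p (mem_insert_of_mem hp))
    have ha2 := hs a (mem_insert_self _ _)
    have hcard : s.card + 2 ≤ a := by
      have h1 : s ⊆ Finset.Ico 2 a := by
        intro p hp
        rw [mem_Ico]
        exact ⟨hs p (mem_insert_of_mem hp), ha p hp⟩
      have h2 := card_le_card h1
      rw [Nat.card_Ico] at h2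
      omega
    calc a * ∏ p ∈ s, p ≤ a * ((s.card + 1) * ∏ p ∈ s, (p - 1)) := Nat.mul_le_mul_left _ ih'
      _ = (a * (s.card + 1)) * ∏ p ∈ s, (p - 1) := by ring
      _ ≤ ((s.card + 1 + 1) * (a - 1)) * ∏ p ∈ s, (p - 1) := by
          apply Nat.mul_le_mul_right
          obtain ⟨b, rfl⟩ : ∃ b, a = b + 1 := ⟨a - 1, by omega⟩
          rw [Nat.add_sub_cancel]
          nlinarith
      _ = _ := by ring

theorem totient_ge (m : ℕ) (hm : m ≠ 0) : m ≤ m.totient * (Nat.log 2 m + 1) := by
  have h1 := Nat.totient_mul_prod_primeFactors m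
  have h2 := prod_aux m.primeFactors (fun p hp => (Nat.prime_of_mem_primeFactors hp).two_le)
  have h3 : m.primeFactors.card ≤ Nat.log 2 m := by
    apply Nat.le_log_of_pow_le (by norm_num)
    calc 2 ^ m.primeFactors.card ≤ ∏ p ∈ m.primeFactors, p := by
          apply pow_card_le_prod
          intro p hp
          exact (Nat.prime_of_mem_primeFactors hp).two_le
      _ ≤ m := Nat.le_of_dvd (Nat.pos_of_ne_zero hm) (Nat.prod_primeFactors_dvd m)
  have h4 : 0 < ∏ p ∈ m.primeFactors, (p - 1) := by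
    apply prod_pos
    intro p hp
    have := (Nat.prime_of_mem_primeFactors hp).two_le
    omega
  have h5 : m * ∏ p ∈ m.primeFactors, (p - 1) ≤
      (m.totient * (Nat.log 2 m + 1)) * ∏ p ∈ m.primeFactors, (p - 1) := by
    rw [← h1]
    calc m.totient * ∏ p ∈ m.primeFactors, p
        ≤ m.totient * ((m.primeFactors.card + 1) * ∏ p ∈ m.primeFactors, (p - 1)) :=
          Nat.mul_le_mul_left _ h2
      _ ≤ m.totient * ((Nat.log 2 m + 1) * ∏ p ∈ m.primeFactors, (p - 1)) := by
          apply Nat.mul_le_mul_left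
          apply Nat.mul_le_mul_right
          omega
      _ = _ := by ring
  exact Nat.le_of_mul_le_mul_right h5 h4

/-- normalized traces of roots of unity are small -/
theorem trace_root_le {F Ω : Type*} [Field F] [NumberField F] [Field Ω] [Algebra F Ω]
    [Algebra.IsAlgebraic F Ω] (φ : Ω →+* ℂ) (m : ℕ) (hm : m ≠ 0) (ζ : Ω)
    (hζ : IsPrimitiveRoot ζ m) :
    ‖φ (algebraMap F Ω (Algebra.normalizedTrace F Ω ζ))‖ * m.totient ≤
      Module.finrank ℚ F * Real.sqrt m := by
  classical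
  haveI : NeZero m := ⟨hm⟩
  set E : IntermediateField F Ω := IntermediateField.adjoin F {ζ} with hE
  haveI : IsCyclotomicExtension {m} F E := hζ.intermediateField_adjoin_isCyclotomicExtension F
  haveI : IsGalois F E := IsCyclotomicExtension.isGalois {m} F E
  haveI : FiniteDimensional F E := IsCyclotomicExtension.finiteDimensional {m} F E
  haveI : Algebra.IsIntegral F Ω := Algebra.IsAlgebraic.isIntegral
  haveI : CharZero Ω := charZero_of_injective_algebraMap (algebraMap F Ω).injective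
  have hmem : ζ ∈ E := IntermediateField.mem_adjoin_simple_self F ζ
  set z : E := ⟨ζ, hmem⟩ with hz
  have hzp : IsPrimitiveRoot z m := by
    have h1 : IsPrimitiveRoot (algebraMap E Ω z) m := hζ
    exact IsPrimitiveRoot.of_map_of_injective h1 (algebraMap E Ω).injective
  have h1 : Algebra.normalizedTrace F Ω ζ = (Module.finrank F E : F)⁻¹ * Algebra.trace F E z := by
    have e1 := Algebra.normalizedTrace_intermediateField F Ω z
    have e2 := Algebra.normalizedTrace_eq_of_finiteDimensional_apply F z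
    rw [e2, smul_eq_mul] at e1
    exact e1
  set φ' : E →+* ℂ := φ.comp (algebraMap E Ω) with hφ'
  have hφm : (φ' z) ^ m = 1 := by
    rw [← map_pow, hzp.pow_eq_one, map_one]
  have hφp : IsPrimitiveRoot (φ' z) m := hzp.map_of_injective φ'.injective
  set ψ : AddChar (ZMod m) ℂ := AddChar.zmodChar m hφm with hψ
  have hψp : ψ.IsPrimitive := AddChar.zmodChar_primitive_of_primitive_root m hφp
  have hinj : Function.Injective (hzp.autToPow F) :=
    IsPrimitiveRoot.autToPow_injective F hzp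
  have h2 := parseval m (hzp.autToPow F) hinj ψ hψp
  have h3 : ∑ σ : (E ≃ₐ[F] E), ψ (hzp.autToPow F σ : ZMod m) =
      φ (algebraMap F Ω (Algebra.trace F E z)) := by
    have e1 : algebraMap F Ω (Algebra.trace F E z) =
        algebraMap E Ω (algebraMap F E (Algebra.trace F E z)) :=
      IsScalarTower.algebraMap_apply F E Ω _
    rw [e1, trace_eq_sum_automorphisms, map_sum, map_sum]
    refine sum_congr rfl fun σ _ => ?_
    rw [hψ, AddChar.zmodChar_apply, ← map_pow, hzp.autToPow_spec F σ]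
    rfl
  rw [h3] at h2
  have h4 : ‖φ (algebraMap F Ω (Algebra.trace F E z))‖ ≤ Real.sqrt m := by
    rw [← Real.sqrt_sq (norm_nonneg (φ (algebraMap F Ω (Algebra.trace F E z))))]
    exact Real.sqrt_le_sqrt h2
  have hr0 : (0 : ℝ) < Module.finrank F E := by exact_mod_cast Module.finrank_pos
  have h5 : ‖φ (algebraMap F Ω (Algebra.normalizedTrace F Ω ζ))‖ * Module.finrank F E ≤
      Real.sqrt m := by
    rw [h1, map_mul, map_mul, norm_mul, map_inv₀, map_inv₀, map_natCast, map_natCast, norm_inv,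
      Complex.norm_natCast]
    calc _ = ‖φ (algebraMap F Ω (Algebra.trace F E z))‖ := by field_simp
      _ ≤ _ := h4
  have h6 : m.totient ≤ Module.finrank ℚ F * Module.finrank F E := by
    haveI : FiniteDimensional ℚ E := Module.Finite.trans F E
    rw [Module.finrank_mul_finrank]
    have e1 := minpoly.natDegree_le (A := ℚ) z
    rw [← Polynomial.cyclotomic_eq_minpoly_rat hzp (Nat.pos_of_ne_zero hm),
      Polynomial.natDegree_cyclotomic] at e1
    exact e1
  have h7 : (m.totient : ℝ) ≤ Module.finrank ℚ F * Module.finrank F E := by exact_mod_cast h6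
  calc ‖φ (algebraMap F Ω (Algebra.normalizedTrace F Ω ζ))‖ * m.totient
      ≤ ‖φ (algebraMap F Ω (Algebra.normalizedTrace F Ω ζ))‖ *
        (Module.finrank ℚ F * Module.finrank F E) := by gcongr
    _ = Module.finrank ℚ F *
        (‖φ (algebraMap F Ω (Algebra.normalizedTrace F Ω ζ))‖ * Module.finrank F E) := by ring
    _ ≤ _ := by gcongr

theorem sqrt_totient (ε : ℝ) (hε : 0 < ε) : ∃ m₀ : ℕ, ∀ m ≥ m₀, m ≠ 0 →
    Real.sqrt m ≤ ε * m.totient := by
  -- `(log₂ m + 1) / sqrt m` tends to zero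
  have h1 : ∀ᶠ x : ℝ in Filter.atTop, Real.log x ≤ (ε * Real.log 2 / 2) * x ^ (1 / 2 : ℝ) := by
    have h2 := (isLittleO_log_rpow_atTop (r := 1 / 2) (by norm_num)).def
      (show 0 < ε * Real.log 2 / 2 by have := Real.log_pos (by norm_num : (1 : ℝ) < 2); positivity)
    filter_upwards [h2, Filter.eventually_ge_atTop 1] with x hx hx1
    rw [Real.norm_of_nonneg (Real.log_nonneg hx1), Real.norm_of_nonneg (by positivity)] at hx
    exact hx
  have h2 : ∀ᶠ x : ℝ in Filter.atTop, 1 ≤ (ε / 2) * x ^ (1 / 2 : ℝ) := by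
    have h3 := (tendsto_rpow_atTop (show (0 : ℝ) < 1 / 2 by norm_num)).eventually_ge_atTop (2 / ε)
    filter_upwards [h3] with x hx
    rw [div_le_iff₀ hε] at hx
    linarith
  obtain ⟨x₀, hx₀⟩ := Filter.eventually_atTop.1 (h1.and h2)
  refine ⟨⌈x₀⌉₊, fun m hm hm0 => ?_⟩
  obtain ⟨h3, h4⟩ := hx₀ m ((Nat.le_ceil _).trans (by exact_mod_cast hm))
  rw [← Real.sqrt_eq_rpow] at h3 h4
  have h5 : (m : ℝ) ≤ m.totient * (Nat.log 2 m + 1) := by exact_mod_cast totient_ge m hm0
  have hlog2 := Real.log_pos (by norm_num : (1 : ℝ) < 2)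
  have h6 : (Nat.log 2 m : ℝ) * Real.log 2 ≤ Real.log m := by
    rw [← Real.log_pow]
    apply Real.log_le_log (by positivity)
    exact_mod_cast Nat.pow_log_le_self 2 hm0
  have h7 : (Nat.log 2 m : ℝ) ≤ (ε / 2) * Real.sqrt m := by
    have h8 : (Nat.log 2 m : ℝ) * Real.log 2 ≤ (ε / 2 * Real.sqrt m) * Real.log 2 := by
      calc _ ≤ _ := h6
        _ ≤ _ := h3
        _ = _ := by ring
    exact le_of_mul_le_mul_right h8 hlog2
  have h8 : (Nat.log 2 m : ℝ) + 1 ≤ ε * Real.sqrt m := by linarith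
  have hm1 : (0 : ℝ) < m := by exact_mod_cast Nat.pos_of_ne_zero hm0
  have hs0 : 0 < Real.sqrt m := Real.sqrt_pos.2 hm1
  have h9 : Real.sqrt m * Real.sqrt m ≤ (ε * m.totient) * Real.sqrt m := by
    rw [Real.mul_self_sqrt hm1.le]
    calc (m : ℝ) ≤ m.totient * (Nat.log 2 m + 1) := h5
      _ ≤ m.totient * (ε * Real.sqrt m) := by gcongr
      _ = _ := by ring
  exact le_of_mul_le_mul_right h9 hs0

theorem trace_root_small {F Ω : Type*} [Field F] [NumberField F] [Field Ω] [Algebra F Ω]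
    [Algebra.IsAlgebraic F Ω] (φ : Ω →+* ℂ) (ε : ℝ) (hε : 0 < ε) :
    ∃ m₀ : ℕ, ∀ m ≥ m₀, m ≠ 0 → ∀ ζ : Ω, IsPrimitiveRoot ζ m →
      ‖φ (algebraMap F Ω (Algebra.normalizedTrace F Ω ζ))‖ ≤ ε := by
  set D : ℝ := (Module.finrank ℚ F : ℝ) with hD
  have hD0 : 0 < D := by
    rw [hD]
    exact_mod_cast Module.finrank_pos
  obtain ⟨m₀, hm₀⟩ := sqrt_totient (ε / D) (by positivity)
  refine ⟨m₀, fun m hm hm0 ζ hζ => ?_⟩
  have h1 := trace_root_le (F := F) φ m hm0 ζ hζ
  rw [← hD] at h1
  have h2 := hm₀ m hm hm0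
  have h3 : D * Real.sqrt m ≤ ε * m.totient := by
    calc D * Real.sqrt m ≤ D * (ε / D * m.totient) := by gcongr
      _ = _ := by field_simp
  have h4 : (0 : ℝ) < m.totient := by exact_mod_cast Nat.totient_pos.2 (Nat.pos_of_ne_zero hm0)
  exact le_of_mul_le_mul_right (h1.trans h3) h4

end Pool.Agent.K3h47.Rad
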