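import Pool.Agent.R347.LW.Pow

/-!
# Polynomial relations between well approximable numbers hold for their approximations
-/

set_option autoImplicit false

namespace Pool.Agent.K3h47.Rad

open Pool.Agent.R347.LW Polynomial Complex

variable {ι : Type*} [Fintype ι]

theorem liouville (G : MvPolynomial ι ℤ) : ∃ h' : ℕ, ∀ Y : ℕ, 2 ≤ Y → ∀ a : ι → ℂ,
    (∀ i, RB Y Y (a i)) → MvPolynomial.aeval a G ≠ 0 →
      ((tow h' Y : ℕ) : ℝ)⁻¹ ≤ ‖MvPolynomial.aeval a G‖ := by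
  classical
  obtain ⟨EI, hEI⟩ := int_one G
  obtain ⟨EN, C, hC, hEN⟩ := norm_one_le G
  set e₀ : ℕ := EI + EN with he₀
  let Ω : Type := {Y : ℕ // 2 ≤ Y}
  let Yf : Ω → ℕ := fun ω => ω.1
  have pY : EL Yf (fun ω => (Yf ω : ℝ)) := EL.base
  have pN : ∀ m : ℕ, EL Yf (fun _ => (m : ℝ)) := fun m => EL.const (m : ℝ) (by positivity)
  have p1 : EL Yf (fun _ => (1 : ℝ)) := EL.const 1 (by norm_num)
  have p2 : EL Yf (fun _ => (2 : ℝ)) := EL.const 2 (by norm_num)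
  set r : ℕ := Fintype.card ι with hr
  have pr : EL Yf (fun ω => ((r * Yf ω + 1 : ℕ) : ℝ)) :=
    (((pN r).mul pY).add p1).of_le (fun ω => by positivity) (fun ω => by push_cast; rfl)
  have pG : EL Yf (fun ω => (((r * Yf ω + 1) ^ (r * Yf ω + 1) : ℕ) : ℝ)) :=
    (pr.npow _ pr).of_le (fun ω => by positivity) (fun ω => by push_cast; rfl)
  have pB : EL Yf (fun ω => (2 : ℝ) * (((Yf ω : ℝ) ^ r) ^ e₀ *
      (1 + C * ((Yf ω : ℝ) + 1) ^ e₀))) :=
    p2.mul ((((pY.npow (fun _ => r) (pN r)).npow (fun _ => e₀) (pN e₀))).mul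
      (p1.add ((EL.const C hC).mul ((pY.add p1).npow (fun _ => e₀) (pN e₀)))))
  have pAll : EL Yf (fun ω => (2 : ℝ) ^ ((r * Yf ω + 1) ^ (r * Yf ω + 1)) *
      ((2 : ℝ) * (((Yf ω : ℝ) ^ r) ^ e₀ * (1 + C * ((Yf ω : ℝ) + 1) ^ e₀))) ^
        ((r * Yf ω + 1) ^ (r * Yf ω + 1))) :=
    (p2.npow _ pG).mul (pB.npow _ pG)
  obtain ⟨h', hh'⟩ := pAll
  refine ⟨h' + 1, fun Y hY a ha hne => ?_⟩
  obtain ⟨L, hL1, hL2, hL4, A, D, hA, hD1, hDN, hAI, hAR⟩ := common_field Y Y a ha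
  rw [← hr] at hL4 hDN
  set g : ℕ := Fintype.card (L ≃ₐ[ℚ] L) with hg
  set x : L := MvPolynomial.aeval A G with hx
  have hxC : ((x : L) : ℂ) = MvPolynomial.aeval a G := by
    have h1 := MvPolynomial.aeval_algebraMap_apply ℂ A G
    have h2 : (fun i => algebraMap L ℂ (A i)) = a := by
      funext i
      exact hA i
    have h3 : (algebraMap L ℂ ∘ A) = a := h2
    rw [h3] at h1
    rw [h1]
    rfl
  have hσ : ∀ (σ : L ≃ₐ[ℚ] L), ((σ x : L) : ℂ) =
      MvPolynomial.aeval (fun i => ((σ (A i) : L) : ℂ)) G := by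
    intro σ
    have h1 := MvPolynomial.aeval_algebraMap_apply ℂ (fun i => σ (A i)) G
    have h2 : MvPolynomial.aeval (fun i => σ (A i)) G = σ x := by
      have h3 := MvPolynomial.comp_aeval_apply (R := ℤ) (f := A)
        (σ.toAlgHom.restrictScalars ℤ : L →ₐ[ℤ] L) G
      exact h3.symm
    rw [h2] at h1
    exact h1.symm
  have hx0 : x ≠ 0 := by
    intro h0
    rw [h0] at hxC
    exact hne (by rw [← hxC]; simp)
  have hxC0 : (x : ℂ) ≠ 0 := by exact_mod_cast hx0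
  have hY1 : (1 : ℝ) ≤ Y := by exact_mod_cast (by omega : 1 ≤ Y)
  have hBpos : (1 : ℝ) ≤ 1 + C * ((Y : ℝ) + 1) ^ e₀ := by
    have : 0 ≤ C * ((Y : ℝ) + 1) ^ e₀ := by positivity
    linarith
  have hmain := poly_prod L 1 (fun j => if j = 1 then x else -1) (D ^ e₀)
    (Nat.one_le_pow _ _ hD1) (1 + C * ((Y : ℝ) + 1) ^ e₀) (by simpa using hx0) ?_ ?_
    ((x : ℂ)⁻¹) ?_ (tow h' Y) ?_
  · obtain ⟨P, hP0, hPd, hPN, hPa⟩ := hmain
    have h1 := root_norm_le hP0 hPN hPa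
    rw [norm_inv, hxC] at h1
    have h2 : ((tow h' Y : ℕ) : ℝ) + 1 ≤ tow (h' + 1) Y := by
      have := tow_lt_succ h' Y
      exact_mod_cast this
    have h3 : 0 < ‖MvPolynomial.aeval a G‖ := norm_pos_iff.2 hne
    rw [inv_le_comm₀ _ h3]
    · exact h1.trans h2
    · have := le_tow (h' + 1) Y
      exact_mod_cast (by omega : 0 < tow (h' + 1) Y)
  · intro j _
    push_cast
    split_ifs
    · exact hEI e₀ (by omega) L D A hAI
    · rw [mul_neg, mul_one]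
      have h2 : IsIntegral ℤ (algebraMap ℤ L ((D : ℤ) ^ e₀)) := isIntegral_algebraMap
      exact IsIntegral.neg (by simpa using h2)
  · intro j _ σ
    split_ifs
    · rw [hσ]
      have h1 := hEN (fun i => ((σ (A i) : L) : ℂ)) ((Y : ℝ) + 1) (by linarith)
        (fun i => hAR i σ) e₀ (by omega)
      linarith
    · rw [map_neg, map_one]
      simpa using hBpos
  · rw [Finset.sum_range_succ, Finset.sum_range_one]
    simp [mul_inv_cancel₀ hxC0]
  · have h1 := (hh' (⟨Y, hY⟩ : Ω)).2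
    change (2 : ℝ) ^ ((r * Y + 1) ^ (r * Y + 1)) *
      ((2 : ℝ) * (((Y : ℝ) ^ r) ^ e₀ * (1 + C * ((Y : ℝ) + 1) ^ e₀))) ^
        ((r * Y + 1) ^ (r * Y + 1)) ≤ tow h' Y at h1
    refine le_trans ?_ h1
    rw [one_mul]
    have e1 : ((1 : ℕ) : ℝ) + 1 = 2 := by norm_num
    rw [e1]
    have e2 : (2 : ℝ) * (((D ^ e₀ : ℕ) : ℝ) * (1 + C * ((Y : ℝ) + 1) ^ e₀)) ≤
        (2 : ℝ) * (((Y : ℝ) ^ r) ^ e₀ * (1 + C * ((Y : ℝ) + 1) ^ e₀)) := by
      push_cast
      have e3 : (D : ℝ) ≤ (Y : ℝ) ^ r := by exact_mod_cast hDN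
      gcongr
    have e4 : 1 ≤ (2 : ℝ) * (((Y : ℝ) ^ r) ^ e₀ * (1 + C * ((Y : ℝ) + 1) ^ e₀)) := by
      have f2 : (1 : ℝ) ≤ ((Y : ℝ) ^ r) ^ e₀ := one_le_pow₀ (one_le_pow₀ hY1)
      exact one_le_mul_of_one_le_of_one_le (by norm_num)
        (one_le_mul_of_one_le_of_one_le f2 hBpos)
    refine mul_le_mul ?_ ?_ (by positivity) (by positivity)
    · exact pow_le_pow_right₀ (by norm_num) hL4
    · exact (pow_le_pow_left₀ (by positivity) e2 g).trans (pow_le_pow_right₀ e4 hL4)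

/-- polynomial relations hold for good approximations -/
theorem exact1 (q : ℕ → ℕ) (hq : ∀ k, 2 ≤ q k) (G : MvPolynomial ι ℤ) (ξ : ι → ℂ)
    (hξ : MvPolynomial.aeval ξ G = 0) (H : ℕ) : ∃ κ : ℕ, ∀ (k : ℕ) (a : ι → ℂ),
    (∀ i, RB (tow H (q k)) (tow H (q k)) (a i)) →
    (∀ i, ‖ξ i - a i‖ ≤ ((tow κ (q k) : ℕ) : ℝ)⁻¹) → MvPolynomial.aeval a G = 0 := by
  obtain ⟨h', hh'⟩ := liouville G
  obtain ⟨T, C, hC, hlip⟩ := lip ξ G
  set b : ℕ := ⌈C⌉₊ with hb
  refine ⟨h' + H + b + 2, fun k a ha hε => ?_⟩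
  by_contra hne
  have hq2 := hq k
  have hH2 := le_tow H (q k)
  have htpos : ∀ m, 0 < ((tow m (q k) : ℕ) : ℝ) := fun m => by
    have := le_tow m (q k)
    exact_mod_cast (by omega : 0 < tow m (q k))
  have htone : ∀ m, 1 ≤ ((tow m (q k) : ℕ) : ℝ) := fun m => by
    have := le_tow m (q k)
    exact_mod_cast (by omega : 1 ≤ tow m (q k))
  have h1 := hh' (tow H (q k)) (by omega) a ha hne
  rw [tow_tow] at h1
  have h2 := hlip a _ (inv_pos.2 (htpos (h' + H + b + 2))).le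
    (inv_le_one_of_one_le₀ (htone (h' + H + b + 2))) (fun i _ => hε i)
  rw [hξ, zero_sub, norm_neg] at h2
  have h3 := h1.trans h2
  have h4 : ((tow (h' + H + b + 2) (q k) : ℕ) : ℝ) ≤ C * tow (h' + H) (q k) := by
    rw [← div_eq_mul_inv, le_div_iff₀ (htpos _), inv_mul_le_iff₀ (htpos _)] at h3
    linarith
  have h5 : b * tow (h' + H) (q k) < tow (h' + H + b + 2) (q k) := by
    have e1 : b ≤ tow (h' + H + b) (q k) := by
      have := le_tow (h' + H + b) (q k)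
      omega
    have e2 : tow (h' + H) (q k) ≤ tow (h' + H + b) (q k) := tow_mono_left (by omega) _
    exact (Nat.mul_le_mul e1 e2).trans_lt (tow_sq_lt _ (q k))
  have h6 : (b : ℝ) * tow (h' + H) (q k) < tow (h' + H + b + 2) (q k) := by exact_mod_cast h5
  have h7 : C * tow (h' + H) (q k) ≤ (b : ℝ) * tow (h' + H) (q k) :=
    mul_le_mul_of_nonneg_right (Nat.le_ceil _) (htpos _).le
  linarith

/-- roots of fixed algebraic numbers -/
theorem rb_rpow (l : ℂ) (hl : IsAlgebraic ℚ (exp l)) (X₀ : ℕ) : ∃ h' : ℕ, ∀ Y : ℕ, 2 ≤ Y →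
    ∀ (u : ℤ) (v : ℕ), 1 ≤ v → v ≤ Y → u.natAbs ≤ X₀ * v →
      RB (tow h' Y) (tow h' Y) (exp (((u : ℂ) / v) * l)) := by
  classical
  obtain ⟨P, hP0, hP⟩ : ∃ P : ℤ[X], P ≠ 0 ∧ aeval (exp l) P = 0 := by
    have h1 : IsAlgebraic ℤ (exp l) := (IsFractionRing.isAlgebraic_iff ℤ ℚ ℂ).2 hl
    exact h1
  set N : ℕ := P.natDegree + ∑ n ∈ P.support, (P.coeff n).natAbs with hN
  have hRB : RB N N (exp l) := by
    refine ⟨P, hP0, by omega, fun n => ?_, hP⟩
    by_cases hn : n ∈ P.support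
    · have h1 : (P.coeff n).natAbs ≤ N := by
        have := Finset.single_le_sum (f := fun n => (P.coeff n).natAbs)
          (fun _ _ => Nat.zero_le _) hn
        beta_reduce at this
        omega
      rw [← Int.natCast_natAbs]
      exact_mod_cast h1
    · rw [notMem_support_iff.1 hn]
      simp
  obtain ⟨L, hL1, hL2, hL4, A, D, hA, hD1, hDN, hAI, hAR⟩ := common_field N N
    (fun _ : Fin 1 => exp l) (fun _ => hRB)
  rw [Fintype.card_fin, pow_one] at hDN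
  set g : ℕ := Fintype.card (L ≃ₐ[ℚ] L) with hg
  have hA' : ((A 0 : L) : ℂ) = exp l := hA 0
  have hA0 : A 0 ≠ 0 := by
    intro h0
    rw [h0] at hA'
    exact exp_ne_zero l (by rw [← hA']; simp)
  let Ω : Type := {Y : ℕ // 2 ≤ Y}
  let Yf : Ω → ℕ := fun ω => ω.1
  have pY : EL Yf (fun ω => (Yf ω : ℝ)) := EL.base
  have p1 : EL Yf (fun _ => (1 : ℝ)) := EL.const 1 (by norm_num)
  have p2 : EL Yf (fun _ => (2 : ℝ)) := EL.const 2 (by norm_num)
  have pN : ∀ m : ℕ, EL Yf (fun _ => (m : ℝ)) := fun m => EL.const (m : ℝ) (by positivity)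
  have pYg : EL Yf (fun ω => ((Yf ω * g : ℕ) : ℝ)) :=
    (pY.mul (pN g)).of_le (fun ω => by positivity) (fun ω => by push_cast; rfl)
  have pXY : EL Yf (fun ω => ((X₀ * Yf ω : ℕ) : ℝ)) :=
    ((pN X₀).mul pY).of_le (fun ω => by positivity) (fun ω => by push_cast; rfl)
  have pAll : EL Yf (fun ω => (2 : ℝ) ^ (Yf ω * g) *
      (((Yf ω : ℝ) + 1) * ((N : ℝ) ^ (X₀ * Yf ω) * ((N : ℝ) + 1) ^ (X₀ * Yf ω))) ^ g +
      ((Yf ω * g : ℕ) : ℝ)) :=
    ((p2.npow _ pYg).mul (((pY.add p1).mul (((pN N).npow _ pXY).mul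
      (((pN N).add p1).npow _ pXY))).npow (fun _ => g) (pN g))).add pYg
  obtain ⟨h', hh'⟩ := pAll
  refine ⟨h', fun Y hY u v hv1 hvY hu => ?_⟩
  set m₁ : ℕ := (-u).toNat with hm₁
  set m₂ : ℕ := u.toNat with hm₂
  have hm : (u : ℤ) + m₁ = m₂ := by
    rw [hm₁, hm₂]
    omega
  have hmabs : m₁ + m₂ = u.natAbs := by
    rw [hm₁, hm₂]
    omega
  have hvC : (v : ℂ) ≠ 0 := by exact_mod_cast (by omega : v ≠ 0)
  have hroot : exp (((u : ℂ) / v) * l) ^ v * ((A 0 : L) : ℂ) ^ m₁ = ((A 0 : L) : ℂ) ^ m₂ := by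
    rw [hA', ← exp_nat_mul, ← exp_nat_mul, ← exp_nat_mul, ← exp_add]
    congr 1
    have h1 : (v : ℂ) * ((u : ℂ) / v * l) = (u : ℂ) * l := by
      field_simp
    have h2 : (m₂ : ℂ) = (u : ℂ) + m₁ := by
      have := congrArg (fun z : ℤ => (z : ℂ)) hm
      push_cast at this
      exact this.symm
    rw [h1, h2]
    ring
  have h1 := (hh' (⟨Y, hY⟩ : Ω)).2
  change (2 : ℝ) ^ (Y * g) * (((Y : ℝ) + 1) * ((N : ℝ) ^ (X₀ * Y) *
    ((N : ℝ) + 1) ^ (X₀ * Y))) ^ g + ((Y * g : ℕ) : ℝ) ≤ tow h' Y at h1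
  have h4 : (2 : ℕ) ^ (Y * g) * ((Y + 1) * (N ^ (X₀ * Y) *
    (N + 1) ^ (X₀ * Y))) ^ g + Y * g ≤ tow h' Y := by exact_mod_cast h1
  have hmY : m₁ + m₂ ≤ X₀ * Y := by
    rw [hmabs]
    exact hu.trans (Nat.mul_le_mul_left _ hvY)
  have hN1 : 1 ≤ N := hD1.trans hDN
  have hmain := pow_root L (A 0) hA0 N D hD1 hDN (hAI 0) (hAR 0) v m₁ m₂ hv1 _ hroot
    (tow h' Y) g le_rfl ?_
  · refine hmain.mono ?_ le_rfl
    have : v * g ≤ Y * g := Nat.mul_le_mul_right g hvY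
    omega
  · refine le_trans ?_ ((Nat.le_add_right _ _).trans h4)
    refine Nat.mul_le_mul ?_ ?_
    · exact Nat.pow_le_pow_right (by norm_num) (Nat.mul_le_mul_right g hvY)
    · refine Nat.pow_le_pow_left ?_ _
      refine Nat.mul_le_mul (by omega) (Nat.mul_le_mul ?_ ?_)
      · exact Nat.pow_le_pow_right (by omega) hmY
      · exact Nat.pow_le_pow_right (by omega) hmY

theorem rb_rat (N : ℕ) (u : ℤ) (v : ℕ) (hv : 1 ≤ v) (hvN : v ≤ N) (hu : u.natAbs ≤ N) :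
    RB N N ((u : ℂ) / v) := by
  have hv0 : (v : ℂ) ≠ 0 := by exact_mod_cast (by omega : v ≠ 0)
  refine ⟨C (v : ℤ) * X - C u, ?_, ?_, ?_, ?_⟩
  · intro h0
    have h1 := congrArg (fun P : ℤ[X] => P.coeff 1) h0
    beta_reduce at h1
    rw [coeff_sub, coeff_C_mul, coeff_X_one, mul_one, coeff_C_of_ne_zero one_ne_zero, sub_zero,
      coeff_zero] at h1
    exact hv0 (by exact_mod_cast congrArg (fun t : ℤ => (t : ℂ)) h1)
  · refine (natDegree_sub_le _ _).trans ?_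
    rw [natDegree_C]
    have h1 : (C (v : ℤ) * X).natDegree ≤ 1 := (natDegree_C_mul_le _ _).trans natDegree_X_le
    omega
  · intro n
    rw [coeff_sub, coeff_C_mul, coeff_X, coeff_C]
    split_ifs with h1 h2 h2
    · omega
    · rw [mul_one, sub_zero]
      have : |(v : ℤ)| = v := abs_of_nonneg (by positivity)
      rw [this]
      exact_mod_cast hvN
    · rw [mul_zero, zero_sub, abs_neg, ← Int.natCast_natAbs]
      exact_mod_cast hu
    · simp
  · rw [map_sub, map_mul, aeval_C, aeval_C, aeval_X, eq_intCast, eq_intCast]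
    push_cast
    rw [mul_div_cancel₀ _ hv0, sub_self]

theorem rb_alg (z : ℂ) (hz : IsAlgebraic ℚ z) : ∃ N : ℕ, RB N N z := by
  obtain ⟨P, hP0, hP⟩ : ∃ P : ℤ[X], P ≠ 0 ∧ aeval z P = 0 := by
    have h1 : IsAlgebraic ℤ z := (IsFractionRing.isAlgebraic_iff ℤ ℚ ℂ).2 hz
    exact h1
  refine ⟨P.natDegree + ∑ n ∈ P.support, (P.coeff n).natAbs, P, hP0, by omega, fun n => ?_, hP⟩
  by_cases hn : n ∈ P.support
  · have h1 : (P.coeff n).natAbs ≤ P.natDegree + ∑ n ∈ P.support, (P.coeff n).natAbs := by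
      have := Finset.single_le_sum (f := fun n => (P.coeff n).natAbs)
        (fun _ _ => Nat.zero_le _) hn
      beta_reduce at this
      omega
    rw [← Int.natCast_natAbs]
    exact_mod_cast h1
  · rw [notMem_support_iff.1 hn, abs_zero]
    exact Int.natCast_nonneg _

/-- **Specialization.** Polynomial relations between algebraic numbers, rationally approximable real
numbers `x` and numbers `exp (x l)` with algebraic `exp l` hold for rational numbers near to the `x`. -/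
theorem exact2 {P τ J : Type*} [Fintype P] [Fintype τ] [Fintype J] (q : ℕ → ℕ)
    (hq : ∀ k, 2 ≤ q k) (l : J → ℂ) (hl : ∀ j, IsAlgebraic ℚ (exp (l j))) (a : P → ℂ)
    (ha : ∀ p, IsAlgebraic ℚ (a p)) (x : τ → ℝ) (hx : ∀ t, RAppr q (x t))
    (G : MvPolynomial (P ⊕ (τ ⊕ (τ × J))) ℤ)
    (hG : MvPolynomial.aeval (Sum.elim a (Sum.elim (fun t => (x t : ℂ))
      (fun p => exp (x p.1 * l p.2)))) G = 0) (ε : ℝ) (hε : 0 < ε) :
    ∃ s : τ → ℚ, (∀ t, |x t - s t| ≤ ε) ∧ MvPolynomial.aeval (Sum.elim a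
      (Sum.elim (fun t => ((s t : ℚ) : ℂ)) (fun p => exp (s p.1 * l p.2)))) G = 0 := by
  classical
  choose h hh using hx
  set Hx : ℕ := ∑ t, h t with hHx
  have hhHx : ∀ t, h t ≤ Hx := fun t =>
    Finset.single_le_sum (f := h) (fun _ _ => Nat.zero_le _) (Finset.mem_univ t)
  set X₀ : ℕ := ∑ t, ⌈|x t| + 1⌉₊ with hX₀
  have hX₀' : ∀ t, ⌈|x t| + 1⌉₊ ≤ X₀ := fun t =>
    Finset.single_le_sum (f := fun t => ⌈|x t| + 1⌉₊) (fun _ _ => Nat.zero_le _) (Finset.mem_univ t)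
  choose hJ hhJ using fun j => rb_rpow (l j) (hl j) X₀
  choose N hN using fun p => rb_alg (a p) (ha p)
  set H : ℕ := Hx + X₀ + 2 + ∑ j, hJ j + ∑ p, N p with hH
  have hhJH : ∀ j, hJ j ≤ ∑ j, hJ j := fun j =>
    Finset.single_le_sum (f := hJ) (fun _ _ => Nat.zero_le _) (Finset.mem_univ j)
  have hNH : ∀ p, N p ≤ ∑ p, N p := fun p =>
    Finset.single_le_sum (f := N) (fun _ _ => Nat.zero_le _) (Finset.mem_univ p)
  obtain ⟨κ, hκ⟩ := exact1 q hq G _ hG H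
  set C : ℝ := 1 + ∑ j, ‖l j‖ + ∑ t, ∑ j, ‖exp (x t * l j)‖ * (2 * ‖l j‖) with hC
  have hC1 : 0 ≤ ∑ j, ‖l j‖ := Finset.sum_nonneg fun _ _ => norm_nonneg _
  have hC2 : 0 ≤ ∑ t, ∑ j, ‖exp (x t * l j)‖ * (2 * ‖l j‖) :=
    Finset.sum_nonneg fun _ _ => Finset.sum_nonneg fun _ _ => by positivity
  have hClj : ∀ j, ‖l j‖ ≤ C := fun j => by
    have := Finset.single_le_sum (f := fun j => ‖l j‖) (fun _ _ => norm_nonneg _)
      (Finset.mem_univ j)
    beta_reduce at this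
    linarith
  have hCtj : ∀ t j, ‖exp (x t * l j)‖ * (2 * ‖l j‖) ≤ C := fun t j => by
    have e1 := Finset.single_le_sum (f := fun j => ‖exp (x t * l j)‖ * (2 * ‖l j‖))
      (fun _ _ => by positivity) (Finset.mem_univ j)
    have e2 := Finset.single_le_sum (f := fun t => ∑ j, ‖exp (x t * l j)‖ * (2 * ‖l j‖))
      (fun _ _ => Finset.sum_nonneg fun _ _ => by positivity) (Finset.mem_univ t)
    beta_reduce at e1 e2
    linarith
  set κ' : ℕ := κ + ⌈C⌉₊ + ⌈ε⁻¹⌉₊ + 2 with hκ'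
  choose k₀ hk₀ using fun t => hh t κ'
  set k : ℕ := ∑ t, k₀ t with hk
  have hkk : ∀ t, k₀ t ≤ k := fun t =>
    Finset.single_le_sum (f := k₀) (fun _ _ => Nat.zero_le _) (Finset.mem_univ t)
  choose u v hv1 hv2 huv using fun t => hk₀ t k (hkk t)
  set e : ℝ := ((tow κ' (q k) : ℕ) : ℝ)⁻¹ with he
  have hq2 := hq k
  have htpos : ∀ m, 0 < ((tow m (q k) : ℕ) : ℝ) := fun m => by
    have := le_tow m (q k)
    exact_mod_cast (by omega : 0 < tow m (q k))
  have htone : ∀ m, 1 ≤ ((tow m (q k) : ℕ) : ℝ) := fun m => by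
    have := le_tow m (q k)
    exact_mod_cast (by omega : 1 ≤ tow m (q k))
  have he0 : 0 < e := inv_pos.2 (htpos _)
  have he1 : e ≤ 1 := inv_le_one_of_one_le₀ (htone _)
  have heε : e ≤ ε := by
    rw [he, inv_le_comm₀ (htpos _) hε]
    have h1 := le_tow κ' (q k)
    exact (Nat.le_ceil ε⁻¹).trans (by exact_mod_cast (by omega : ⌈ε⁻¹⌉₊ ≤ tow κ' (q k)))
  have hCe : C * e ≤ ((tow κ (q k) : ℕ) : ℝ)⁻¹ := by
    rw [he, ← div_eq_mul_inv, div_le_iff₀ (htpos _), inv_mul_eq_div, le_div_iff₀ (htpos _)]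
    have e1 : ⌈C⌉₊ * tow κ (q k) < tow κ' (q k) := by
      have f1 : ⌈C⌉₊ ≤ tow (κ + ⌈C⌉₊ + ⌈ε⁻¹⌉₊) (q k) := by
        have := le_tow (κ + ⌈C⌉₊ + ⌈ε⁻¹⌉₊) (q k)
        omega
      have f2 : tow κ (q k) ≤ tow (κ + ⌈C⌉₊ + ⌈ε⁻¹⌉₊) (q k) := tow_mono_left (by omega) _
      exact (Nat.mul_le_mul f1 f2).trans_lt (tow_sq_lt _ (q k))
    have e2 : (⌈C⌉₊ : ℝ) * tow κ (q k) ≤ tow κ' (q k) := by exact_mod_cast e1.le
    exact (mul_le_mul_of_nonneg_right (Nat.le_ceil C) (htpos κ).le).trans e2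
  have hCe1 : C * e ≤ 1 := hCe.trans (inv_le_one_of_one_le₀ (htone _))
  have heκ : e ≤ ((tow κ (q k) : ℕ) : ℝ)⁻¹ := by
    refine le_trans ?_ hCe
    have : 1 * e ≤ C * e := mul_le_mul_of_nonneg_right (by linarith) he0.le
    linarith
  have hsx : ∀ t, |x t - (((u t : ℚ) / v t : ℚ) : ℝ)| ≤ e := fun t => by
    push_cast
    exact huv t
  refine ⟨fun t => (u t : ℚ) / v t, fun t => (hsx t).trans heε, ?_⟩
  have hunum : ∀ t, (u t).natAbs ≤ X₀ * v t := fun t =>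
    (num_le he1 (hv1 t) (huv t)).trans (Nat.mul_le_mul_right _ (hX₀' t))
  have hvtow : ∀ t, v t ≤ tow Hx (q k) := fun t => (hv2 t).trans (tow_mono_left (hhHx t) _)
  refine hκ k _ ?_ ?_
  · rintro (p | t | ⟨t, j⟩)
    · have h1 : N p ≤ tow H (q k) := by
        have := le_tow H (q k)
        have := hNH p
        omega
      exact (hN p).mono h1 h1
    · have e1 : v t ≤ tow (Hx + X₀) (q k) := (hvtow t).trans (tow_mono_left (by omega) _)
      have e2 : X₀ ≤ tow (Hx + X₀) (q k) := by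
        have := le_tow (Hx + X₀) (q k)
        omega
      have e3 := tow_sq_lt (Hx + X₀) (q k)
      have e4 : X₀ * v t ≤ tow (Hx + X₀) (q k) * tow (Hx + X₀) (q k) := Nat.mul_le_mul e2 e1
      have e5 : tow (Hx + X₀) (q k) ≤ tow (Hx + X₀ + 2) (q k) := tow_mono_left (by omega) _
      have e6 : tow (Hx + X₀ + 2) (q k) ≤ tow H (q k) := tow_mono_left (by omega) _
      have h1 := rb_rat (tow H (q k)) (u t) (v t) (hv1 t) (e1.trans (e5.trans e6))
        ((hunum t).trans (by omega))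
      simpa using h1
    · have h1 := hhJ j (tow Hx (q k)) (by have := le_tow Hx (q k); omega) (u t) (v t) (hv1 t)
        (hvtow t) (hunum t)
      rw [tow_tow] at h1
      have h2 : tow (hJ j + Hx) (q k) ≤ tow H (q k) := tow_mono_left (by have := hhJH j; omega) _
      have h3 := h1.mono h2 h2
      simpa using h3
  · rintro (p | t | ⟨t, j⟩)
    · simp only [Sum.elim_inl, sub_self, norm_zero]
      exact (inv_pos.2 (htpos _)).le
    · simp only [Sum.elim_inr, Sum.elim_inl]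
      refine le_trans ?_ heκ
      have h1 := hsx t
      rw [← Real.norm_eq_abs, ← Complex.norm_real] at h1
      push_cast at h1 ⊢
      exact h1
    · simp only [Sum.elim_inr]
      refine le_trans ?_ hCe
      set s : ℂ := (((u t : ℚ) / v t : ℚ) : ℂ) with hs
      have h0 : ‖(s - x t) * l j‖ ≤ ‖l j‖ * e := by
        rw [norm_mul, mul_comm]
        refine mul_le_mul_of_nonneg_left ?_ (norm_nonneg _)
        have h1 := hsx t
        rw [← Real.norm_eq_abs, ← Complex.norm_real, ← norm_neg] at h1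
        have h2 : -(((x t - (((u t : ℚ) / v t : ℚ) : ℝ) : ℝ)) : ℂ) = s - x t := by
          rw [hs]
          push_cast
          ring
        rw [h2] at h1
        exact h1
      have h1 : ‖(s - x t) * l j‖ ≤ 1 := by
        refine h0.trans (le_trans ?_ hCe1)
        exact mul_le_mul_of_nonneg_right (hClj j) he0.le
      have h2 : exp (x t * l j) - exp (s * l j) =
          -(exp (x t * l j) * (exp ((s - x t) * l j) - 1)) := by
        rw [mul_sub, ← exp_add]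
        have : (x t : ℂ) * l j + (s - x t) * l j = s * l j := by ring
        rw [this]
        ring
      rw [h2, norm_neg, norm_mul]
      have h3 : ‖exp ((s - x t) * l j) - 1‖ ≤ 2 * (‖l j‖ * e) :=
        (norm_exp_sub_one_le h1).trans (by linarith)
      calc _ ≤ ‖exp (x t * l j)‖ * (2 * (‖l j‖ * e)) :=
            mul_le_mul_of_nonneg_left h3 (norm_nonneg _)
        _ = (‖exp (x t * l j)‖ * (2 * ‖l j‖)) * e := by ring
        _ ≤ C * e := mul_le_mul_of_nonneg_right (hCtj t j) he0.le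

end Pool.Agent.K3h47.Rad
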