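import Pool.Agent.K3h47.Rad.Scha

/-!
# An example: two logarithms and their multiples by one number
-/

set_option autoImplicit false

namespace Pool.Agent.K3h47.Rad

open Pool.Agent.R347.LW Finset Complex

variable {q : ℕ → ℕ}

theorem irr_trans (hq : ∀ k, 2 ≤ q k) (ξ : ℝ) (hξ : RAppr q ξ) (hirr : Irrational ξ) :
    Transcendental ℚ (ξ : ℂ) := by
  classical
  intro halg
  have h1 : IsAlgebraic ℤ (ξ : ℂ) := (IsFractionRing.isAlgebraic_iff ℤ ℚ ℂ).2 halg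
  obtain ⟨P, hP0, hP⟩ := h1
  set V : Set ℂ := {z | Polynomial.aeval z P = 0} with hV
  have hVfin : V.Finite := by
    refine (P.rootSet_finite ℂ).subset ?_
    intro z hz
    rw [Polynomial.mem_rootSet]
    exact ⟨hP0, hz⟩
  have hVr : {s : ℚ | (s : ℂ) ∈ V}.Finite :=
    hVfin.preimage (Rat.cast_injective.injOn)
  obtain ⟨δ, hδ0, -, hδ⟩ := exists_delta {s : ℚ | (s : ℂ) ∈ V} hVr (fun s => |ξ - s|)
    (fun s _ => by
      rw [abs_pos, sub_ne_zero]
      exact hirr.ne_rat s)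
  set G : MvPolynomial (PEmpty.{1} ⊕ (Unit ⊕ (Unit × PEmpty.{1}))) ℤ :=
    Polynomial.aeval (MvPolynomial.X (Sum.inr (Sum.inl ()))) P with hG
  have hGe : ∀ f : (PEmpty.{1} ⊕ (Unit ⊕ (Unit × PEmpty.{1}))) → ℂ,
      MvPolynomial.aeval f G = Polynomial.aeval (f (Sum.inr (Sum.inl ()))) P := by
    intro f
    rw [hG, ← Polynomial.aeval_algHom_apply, MvPolynomial.aeval_X]
  obtain ⟨s, hs, hs0⟩ := exact2 q hq (fun j : PEmpty.{1} => j.elim) (fun j => j.elim)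
    (fun p : PEmpty.{1} => p.elim) (fun p => p.elim) (fun _ : Unit => ξ) (fun _ => hξ) G
    (by rw [hGe]; exact hP) δ hδ0
  rw [hGe] at hs0
  have h2 := hδ (s ()) hs0
  exact absurd (hs ()) (not_le.2 h2)

theorem four (hq : ∀ k, 2 ≤ q k) (l : Fin 2 → ℂ) (hl : ∀ j, l j ∈ Logs)
    (hlin : LinearIndependent ℚ l) (ξ : ℝ) (hξ : RAppr q ξ) (hirr : Irrational ξ) :
    4 ≤ Algebra.trdeg ℚ (fld ![l 0, l 1, ξ * l 0, ξ * l 1]) := by
  classical
  set z : Fin 4 → ℂ := ![l 0, l 1, ξ * l 0, ξ * l 1] with hz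
  have hcomb : ∀ c : Fin 4 → ℚ, ∑ i, (c i : ℂ) * z i =
      ∑ j, (((![(c 0 : ℝ) + ξ * c 2, (c 1 : ℝ) + ξ * c 3] : Fin 2 → ℝ) j : ℝ) : ℂ) * l j := by
    intro c
    rw [Fin.sum_univ_four, Fin.sum_univ_two]
    simp [hz]
    ring
  have hR : ∀ c : Fin 4 → ℚ, ∀ j, RAppr q ((![(c 0 : ℝ) + ξ * c 2, (c 1 : ℝ) + ξ * c 3] :
      Fin 2 → ℝ) j) := by
    intro c j
    fin_cases j
    · exact RAppr.add hq (RAppr.ofRat hq _) (RAppr.mulRat hq hξ _)
    · exact RAppr.add hq (RAppr.ofRat hq _) (RAppr.mulRat hq hξ _)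
  have hirr0 : ∀ a b : ℚ, (∃ r : ℚ, (a : ℝ) + ξ * b = r) → b = 0 := by
    rintro a b ⟨r, hr⟩
    by_contra hb
    have hb' : (b : ℝ) ≠ 0 := by exact_mod_cast hb
    apply hirr
    refine ⟨(r - a) / b, ?_⟩
    push_cast
    rw [div_eq_iff hb']
    linarith
  have hkey : ∀ c : Fin 4 → ℚ, ∑ i, (c i : ℂ) * z i ∈ Logs → c 2 = 0 ∧ c 3 = 0 := by
    intro c hc
    rw [hcomb] at hc
    have h1 := struct0 hq l hl hlin _ (hR c) hc
    exact ⟨hirr0 _ _ (h1 0), hirr0 _ _ (h1 1)⟩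
  have hzlin : LinearIndependent ℚ z := by
    rw [Fintype.linearIndependent_iff]
    intro c hc
    have h0 : ∑ i, (c i : ℂ) * z i = 0 := by
      rw [← hc]
      exact sum_congr rfl fun i _ => (Rat.smul_def _ _).symm
    obtain ⟨h2, h3⟩ := hkey c (by rw [h0]; exact zero_mem _)
    rw [Fintype.linearIndependent_iff] at hlin
    have h4 := hlin ![c 0, c 1] (by
      rw [Fin.sum_univ_two, Rat.smul_def, Rat.smul_def]
      rw [Fin.sum_univ_four, h2, h3] at h0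
      simpa [hz] using h0)
    intro i
    fin_cases i
    · exact h4 0
    · exact h4 1
    · exact h2
    · exact h3
  have hfin : Module.finrank ℚ ↥(Submodule.span ℚ (Set.range z) ⊓ Logs) ≤ 2 := by
    have hle : Submodule.span ℚ (Set.range z) ⊓ Logs ≤ Submodule.span ℚ (Set.range l) := by
      rintro v ⟨hv1, hv2⟩
      rw [SetLike.mem_coe, Submodule.mem_span_range_iff_exists_fun] at hv1
      obtain ⟨c, rfl⟩ := hv1
      have h0 : ∑ i, c i • z i = ∑ i, (c i : ℂ) * z i :=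
        sum_congr rfl fun i _ => Rat.smul_def _ _
      rw [h0] at hv2 ⊢
      obtain ⟨h2, h3⟩ := hkey c hv2
      rw [Submodule.mem_span_range_iff_exists_fun]
      refine ⟨![c 0, c 1], ?_⟩
      rw [Fin.sum_univ_two, Rat.smul_def, Rat.smul_def, Fin.sum_univ_four, h2, h3]
      simp [hz]
    haveI : FiniteDimensional ℚ (Submodule.span ℚ (Set.range l)) :=
      FiniteDimensional.span_of_finite ℚ (Set.finite_range l)
    refine (Submodule.finrank_mono hle).trans ?_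
    rw [finrank_span_eq_card hlin, Fintype.card_fin]
  have hξM : (ξ : ℂ) ∈ fld z ⊓ E q := by
    refine ⟨?_, IntermediateField.subset_adjoin ℚ _ (Or.inr ⟨ξ, hξ, rfl⟩)⟩
    have h1 : l 0 ∈ fld z := IntermediateField.subset_adjoin _ _ (Or.inl ⟨0, rfl⟩)
    have h2 : ξ * l 0 ∈ fld z := IntermediateField.subset_adjoin _ _ (Or.inl ⟨2, rfl⟩)
    have h3 : (ξ : ℂ) = ξ * l 0 / l 0 := by
      rw [mul_div_cancel_right₀ _ (hlin.ne_zero 0)]
    rw [h3]
    exact div_mem h2 h1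
  have ht : (1 : Cardinal) ≤ Algebra.trdeg ℚ ↥(fld z ⊓ E q) := by
    have h1 := trdeg_ge (κ := Unit) (fld z ⊓ E q) (fun _ => (ξ : ℂ))
      (algebraicIndependent_unique_type_iff.2 (irr_trans hq ξ hξ hirr)) (fun _ => hξM)
    simpa using h1
  have hmain := defect_rl hq (n := 4) (by norm_num) z (by
    have h0 : ∀ j, IsRL q (l j) := fun j => IsRL.ofLog hq (hl j)
    have h1 : ∀ j, IsRL q (ξ * l j) := fun j =>
      ⟨1, fun _ => ξ, fun _ => l j, fun _ => hξ, fun _ => hl j, by simp⟩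
    intro i
    fin_cases i
    exacts [h0 0, h0 1, h1 0, h1 1]) hzlin
  have h1 : (4 : Cardinal) + 1 + 1 ≤ Algebra.trdeg ℚ (fld z) + 2 := by
    calc (4 : Cardinal) + 1 + 1 ≤ ((4 : ℕ) : Cardinal) + Algebra.trdeg ℚ ↥(fld z ⊓ E q) + 1 := by
          push_cast
          gcongr
      _ ≤ _ := hmain
      _ ≤ Algebra.trdeg ℚ (fld z) + 2 := by
          gcongr
          exact_mod_cast hfin
  have h2 : (4 : Cardinal) + 2 ≤ Algebra.trdeg ℚ (fld z) + 2 := by
    refine le_trans (le_of_eq ?_) h1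
    rw [add_assoc]
    norm_num
  have h3 := (Cardinal.add_le_add_iff_of_lt_aleph0 (show (2 : Cardinal) < Cardinal.aleph0 by
    exact_mod_cast Cardinal.nat_lt_aleph0 2)).1 h2
  exact h3

end Pool.Agent.K3h47.Rad
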