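import Pool.Agent.K3h47.Rad.Near
import Pool.Agent.K3h47.Rad.Exact

/-!
# Linear independence of the exponentials of combinations of logarithms of algebraic numbers
-/

set_option autoImplicit false

namespace Pool.Agent.K3h47.Rad

open Pool.Agent.R347.LW Finset Complex

theorem exp_alg {J : Type*} [Fintype J] (l : J → ℂ) (hl : ∀ j, IsAlgebraic ℚ (exp (l j)))
    (s₀ : ℚ) (s : J → ℚ) : IsAlgebraic ℚ (rad l s₀ s) := by
  obtain ⟨v, u₀, u, hv, h₀, h⟩ := common_den s₀ s
  have h1 := rad_pow l s₀ s v u₀ u h₀ h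
  refine (IsIntegral.of_pow (Nat.pos_of_ne_zero hv) ?_).isAlgebraic
  rw [h1]
  have h2 : ∏ j, exp (l j) ^ u j ∈ algebraicClosure ℚ ℂ :=
    prod_mem fun j _ => zpow_mem ((mem_algebraicClosure_iff).2 (hl j)) _
  exact ((mem_algebraicClosure_iff).1 h2).isIntegral

theorem rad_div {J : Type*} [Fintype J] (l : J → ℂ) (s₀ s₀' : ℚ) (s s' : J → ℚ) :
    rad l s₀ s / rad l s₀' s' = rad l (s₀ - s₀') (fun j => s j - s' j) := by
  rw [rad, rad, rad, ← exp_sub]
  congr 1
  have h1 : ∑ j, (((s j - s' j : ℚ)) : ℂ) * l j = ∑ j, (s j : ℂ) * l j - ∑ j, (s' j : ℂ) * l j := by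
    rw [← sum_sub_distrib]
    refine sum_congr rfl fun j _ => ?_
    push_cast
    ring
  rw [h1]
  push_cast
  ring

theorem lemA {ι J P τ : Type*} [Fintype ι] [Fintype J] [Fintype P] [Fintype τ]
    (q : ℕ → ℕ) (hq : ∀ k, 2 ≤ q k) (l : J → ℂ) (hl : ∀ j, IsAlgebraic ℚ (exp (l j)))
    (hind : ∀ (r₀ : ℚ) (r : J → ℚ), 2 * Real.pi * I * r₀ + ∑ j, (r j : ℂ) * l j = 0 →
      ∀ j, r j = 0)
    (a : P → ℂ) (ha : ∀ p, IsAlgebraic ℚ (a p)) (x : τ → ℝ) (hx : ∀ t, RAppr q (x t))
    (y₀ : ι → ℝ) (hy₀ : ∀ i, RAppr q (y₀ i)) (y : ι → J → ℝ) (hy : ∀ i j, RAppr q (y i j))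
    (C : ι → MvPolynomial (P ⊕ τ) ℤ) (i₁ : ι)
    (hne : ∀ i, i ≠ i₁ → ¬ ∃ (r₀ : ℚ) (r : J → ℚ), y₀ i - y₀ i₁ = r₀ ∧
      ∀ j, y i j - y i₁ j = r j)
    (hrel : ∑ i, MvPolynomial.aeval (Sum.elim a (fun t => (x t : ℂ))) (C i) *
      exp (2 * Real.pi * I * y₀ i + ∑ j, (y i j : ℂ) * l j) = 0) :
    MvPolynomial.aeval (Sum.elim a (fun t => (x t : ℂ))) (C i₁) = 0 := by
  classical
  -- the rational differences
  have hr : ∀ i, ∃ r : J → ℚ, (∀ j, ∃ r : ℚ, y i j - y i₁ j = r) → ∀ j, y i j - y i₁ j = r j := by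
    intro i
    by_cases h : ∀ j, ∃ r : ℚ, y i j - y i₁ j = r
    · choose r hr using h
      exact ⟨r, fun _ => hr⟩
    · exact ⟨0, fun h' => absurd h' h⟩
  choose r hr using hr
  set F : IntermediateField ℚ ℂ := IntermediateField.adjoin ℚ
    (Set.range (fun j => exp (l j)) ∪ Set.range a ∪ Set.range (fun i => rad l 0 (r i))) with hF
  have hfin : (Set.range (fun j => exp (l j)) ∪ Set.range a ∪
      Set.range (fun i => rad l 0 (r i))).Finite :=
    ((Set.finite_range _).union (Set.finite_range _)).union (Set.finite_range _)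
  haveI : FiniteDimensional ℚ F := by
    rw [hF]
    haveI : Finite ↑(Set.range (fun j => exp (l j)) ∪ Set.range a ∪
      Set.range (fun i => rad l 0 (r i))) := hfin
    refine IntermediateField.finiteDimensional_adjoin ?_
    rintro z ((⟨j, rfl⟩ | ⟨p, rfl⟩) | ⟨i, rfl⟩)
    · exact (hl j).isIntegral
    · exact (ha p).isIntegral
    · exact (exp_alg l hl 0 (r i)).isIntegral
  have hFl : ∀ j, exp (l j) ∈ F := fun j =>
    IntermediateField.subset_adjoin _ _ (Or.inl (Or.inl ⟨j, rfl⟩))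
  have hFa : ∀ p, a p ∈ F := fun p =>
    IntermediateField.subset_adjoin _ _ (Or.inl (Or.inr ⟨p, rfl⟩))
  have hFr : ∀ i, rad l 0 (r i) ∈ F := fun i =>
    IntermediateField.subset_adjoin _ _ (Or.inr ⟨i, rfl⟩)
  -- the coefficients
  set c : (τ → ℝ) → ι → ℂ := fun s i =>
    MvPolynomial.aeval (Sum.elim a (fun t => (s t : ℂ))) (C i) with hc
  have hcF : ∀ (s : τ → ℚ) i, c (fun t => s t) i ∈ F := by
    intro s i
    rw [hc]
    have h1 : (Sum.elim a (fun t => (((s t : ℝ)) : ℂ))) =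
        algebraMap F ℂ ∘ (Sum.elim (fun p => (⟨a p, hFa p⟩ : F)) (fun t => (s t : F))) := by
      funext z
      rcases z with p | t
      · rfl
      · simp
    beta_reduce
    rw [h1, MvPolynomial.aeval_algebraMap_apply]
    exact (MvPolynomial.aeval _ (C i) : F).2
  have hlip : ∀ i, ∃ K : ℝ, 0 ≤ K ∧ ∀ (s : τ → ℝ) (δ : ℝ), 0 ≤ δ → δ ≤ 1 →
      (∀ t, |x t - s t| ≤ δ) → ‖c x i - c s i‖ ≤ K * δ := by
    intro i
    obtain ⟨T, K, hK, hKl⟩ := lip (Sum.elim a (fun t => (x t : ℂ))) (C i)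
    refine ⟨K, hK, fun s δ h0 h1 hs => hKl _ δ h0 h1 ?_⟩
    rintro (p | t) _
    · simpa using h0
    · simp only [Sum.elim_inr]
      rw [← Complex.ofReal_sub, Complex.norm_real]
      exact hs t
  choose K hK0 hK using hlip
  -- it is enough to bound `c x i₁`
  set B : ℝ := 1 + ∑ i, (‖c x i‖ + 1) with hB
  have hB0 : 0 < B := by
    have : 0 ≤ ∑ i, (‖c x i‖ + 1) := sum_nonneg fun _ _ => by positivity
    linarith
  change c x i₁ = 0
  have hmain : ∀ ε : ℝ, 0 < ε → ‖c x i₁‖ ≤ B * ε := by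
    intro ε hε
    have hnear : ∀ i, ∃ δ : ℝ, 0 < δ ∧ (i ≠ i₁ → ∀ (s₀ : ℚ) (s : J → ℚ),
        |(y₀ i - y₀ i₁) - s₀| ≤ δ → (∀ j, |(y i j - y i₁ j) - s j| ≤ δ) →
        ‖T F (rad l s₀ s)‖ ≤ ε) := by
      intro i
      by_cases hi : i = i₁
      · exact ⟨1, one_pos, fun h => absurd hi h⟩
      · have hcase : (∃ j, Irrational (y i j - y i₁ j)) ∨ (∃ r : J → ℚ, (∀ j, y i j - y i₁ j = r j) ∧
            Irrational (y₀ i - y₀ i₁) ∧ exp (∑ j, (r j : ℂ) * l j) ∈ F) := by
          by_cases hall : ∀ j, ∃ r : ℚ, y i j - y i₁ j = r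
          · right
            refine ⟨r i, hr i hall, ?_, ?_⟩
            · rintro ⟨r₀, hr₀⟩
              exact hne i hi ⟨r₀, r i, hr₀.symm, hr i hall⟩
            · have h1 := hFr i
              rw [rad] at h1
              simpa using h1
          · left
            push Not at hall
            obtain ⟨j, hj⟩ := hall
            refine ⟨j, ?_⟩
            rintro ⟨r', hr'⟩
            exact hj r' hr'.symm
        obtain ⟨δ, hδ, h⟩ := near (F := F) l hFl hind (y₀ i - y₀ i₁) (fun j => y i j - y i₁ j)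
          hcase ε hε
        exact ⟨δ, hδ, fun _ => h⟩
    choose δ hδ0 hδ using hnear
    obtain ⟨η, hη0, hη1, hη⟩ : ∃ η : ℝ, 0 < η ∧ η ≤ 1 ∧ ∀ i, 2 * η ≤ δ i ∧ K i * η ≤ min 1 ε := by
      have h1 : ∀ i, 0 < min (δ i / 2) (min 1 ε / (K i + 1)) := fun i => by
        have := hK0 i
        have := hδ0 i
        positivity
      obtain ⟨η, h0, h2, h3⟩ := exists_delta (Set.univ : Set ι) Set.finite_univ
        (fun i => min (δ i / 2) (min 1 ε / (K i + 1))) (fun i _ => h1 i)
      refine ⟨η, h0, h2, fun i => ?_⟩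
      have h4 := (h3 i (Set.mem_univ i)).le
      have h5 := h4.trans (min_le_left _ _)
      have h6 := h4.trans (min_le_right _ _)
      refine ⟨by linarith, ?_⟩
      have h7 := hK0 i
      rw [le_div_iff₀ (by linarith)] at h6
      nlinarith
    -- the rational relation
    let τ' := τ ⊕ (ι ⊕ (ι × J))
    let x' : τ' → ℝ := Sum.elim x (Sum.elim y₀ (fun p => y p.1 p.2))
    let l' : Option J → ℂ := fun o => o.elim (2 * Real.pi * I) l
    let φ : P ⊕ τ → P ⊕ (τ' ⊕ (τ' × Option J)) := Sum.elim Sum.inl (fun t => Sum.inr (Sum.inl (Sum.inl t)))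
    let G : MvPolynomial (P ⊕ (τ' ⊕ (τ' × Option J))) ℤ := ∑ i, MvPolynomial.rename φ (C i) *
      (MvPolynomial.X (Sum.inr (Sum.inr (Sum.inr (Sum.inl i), none))) *
        ∏ j, MvPolynomial.X (Sum.inr (Sum.inr (Sum.inr (Sum.inr (i, j)), some j))))
    have hGev : ∀ s : τ' → ℝ, MvPolynomial.aeval (Sum.elim a (Sum.elim (fun t => (s t : ℂ))
        (fun p => exp (s p.1 * l' p.2)))) G = ∑ i, c (fun t => s (Sum.inl t)) i *
          exp (2 * Real.pi * I * s (Sum.inr (Sum.inl i)) +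
            ∑ j, (s (Sum.inr (Sum.inr (i, j))) : ℂ) * l j) := by
      intro s
      simp only [G, map_sum, map_mul, map_prod, MvPolynomial.aeval_rename, MvPolynomial.aeval_X,
        Sum.elim_inr]
      refine sum_congr rfl fun i _ => ?_
      congr 1
      · rw [hc]
        congr 2
        funext z
        rcases z with p | t <;> rfl
      · rw [exp_add, exp_sum]
        congr 2
        change (s (Sum.inr (Sum.inl i)) : ℂ) * (2 * Real.pi * I) = _
        ring
    have hG0 : MvPolynomial.aeval (Sum.elim a (Sum.elim (fun t => (x' t : ℂ))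
        (fun p => exp (x' p.1 * l' p.2)))) G = 0 := by
      rw [hGev]
      exact hrel
    obtain ⟨s, hsx, hs⟩ := exact2 q hq l' (by
      rintro (_ | j)
      · change IsAlgebraic ℚ (exp (2 * Real.pi * I))
        rw [exp_two_pi_mul_I]
        exact isAlgebraic_one
      · exact hl j) a ha x' (by
      rintro (t | i | ⟨i, j⟩)
      · exact hx t
      · exact hy₀ i
      · exact hy i j) G hG0 η hη0
    have hs' := hGev (fun t => (s t : ℝ))
    have hcast : (fun t => (((s t : ℝ)) : ℂ)) = fun t => ((s t : ℚ) : ℂ) := by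
      funext t
      push_cast
      rfl
    have hs2 : ∑ i, c (fun t => (s (Sum.inl t) : ℝ)) i *
        rad l (s (Sum.inr (Sum.inl i))) (fun j => s (Sum.inr (Sum.inr (i, j)))) = 0 := by
      have e1 : MvPolynomial.aeval (Sum.elim a (Sum.elim (fun t => (((s t : ℝ)) : ℂ))
        (fun p => exp (((s p.1 : ℝ) : ℂ) * l' p.2)))) G = 0 := by
        have e2 : (Sum.elim a (Sum.elim (fun t : τ' => (((s t : ℝ)) : ℂ))
          (fun p : τ' × Option J => exp (((s p.1 : ℝ) : ℂ) * l' p.2)))) = (Sum.elim a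
            (Sum.elim (fun t : τ' => ((s t : ℚ) : ℂ))
              (fun p : τ' × Option J => exp (s p.1 * l' p.2)))) := by
          funext z
          rcases z with p | t | p
          · rfl
          · simp
          · simp
        rw [e2]
        exact hs
      rw [hs'] at e1
      rw [← e1]
      refine sum_congr rfl fun i _ => ?_
      rw [rad]
      push_cast
      rfl
    -- divide by the term `i₁`
    obtain ⟨w, hw⟩ : ∃ w : ι → ℂ, w = fun i => rad l (s (Sum.inr (Sum.inl i)) - s (Sum.inr (Sum.inl i₁)))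
      (fun j => s (Sum.inr (Sum.inr (i, j))) - s (Sum.inr (Sum.inr (i₁, j)))) := ⟨_, rfl⟩
    have hw1 : w i₁ = 1 := by
      rw [hw]
      simp [rad]
    have hs3 : ∑ i, c (fun t => (s (Sum.inl t) : ℝ)) i * w i = 0 := by
      have e1 : ∀ i, w i = rad l (s (Sum.inr (Sum.inl i))) (fun j => s (Sum.inr (Sum.inr (i, j)))) /
          rad l (s (Sum.inr (Sum.inl i₁))) (fun j => s (Sum.inr (Sum.inr (i₁, j)))) := fun i => by
        rw [hw]
        exact (rad_div l _ _ _ _).symm
      simp_rw [e1, ← mul_div_assoc, ← sum_div]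
      rw [hs2, zero_div]
    have hT := T_sum F univ (c (fun t => (s (Sum.inl t) : ℝ))) w
      (fun i _ => hcF (fun t => s (Sum.inl t)) i) (fun i _ => by rw [hw]; exact rad_mem l hFl _ _)
    rw [hs3] at hT
    have hT0 : T F 0 = 0 := by
      have := T_mul F (c := 0) (x := 1) (zero_mem _) (one_mem _)
      simpa using this
    rw [hT0, ← add_sum_erase univ _ (mem_univ i₁), hw1, T_one, mul_one] at hT
    have hdel : ∀ t, |x' t - s t| ≤ η := hsx
    have hcs : ∀ i, ‖c x i - c (fun t => (s (Sum.inl t) : ℝ)) i‖ ≤ K i * η := fun i =>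
      hK i _ η hη0.le hη1 (fun t => hsx (Sum.inl t))
    have hcn : ∀ i, ‖c (fun t => (s (Sum.inl t) : ℝ)) i‖ ≤ ‖c x i‖ + 1 := by
      intro i
      have e1 : c (fun t => (s (Sum.inl t) : ℝ)) i =
          c x i - (c x i - c (fun t => (s (Sum.inl t) : ℝ)) i) := by ring
      rw [e1]
      refine (norm_sub_le _ _).trans ?_
      have e2 := hcs i
      have e3 := (hη i).2.trans (min_le_left _ _)
      linarith
    have hwT : ∀ i ∈ univ.erase i₁, ‖T F (w i)‖ ≤ ε := by
      intro i hi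
      rw [hw]
      refine hδ i (ne_of_mem_erase hi) _ _ ?_ fun j => ?_
      · have e1 := hsx (Sum.inr (Sum.inl i))
        have e2 := hsx (Sum.inr (Sum.inl i₁))
        have e3 : (y₀ i - y₀ i₁) - ((s (Sum.inr (Sum.inl i)) - s (Sum.inr (Sum.inl i₁)) : ℚ) : ℝ) =
          (x' (Sum.inr (Sum.inl i)) - s (Sum.inr (Sum.inl i))) -
            (x' (Sum.inr (Sum.inl i₁)) - s (Sum.inr (Sum.inl i₁))) := by
          push_cast
          simp only [x', Sum.elim_inr, Sum.elim_inl]
          ring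
        rw [e3]
        refine (abs_sub _ _).trans ?_
        have := (hη i).1
        linarith
      · have e1 := hsx (Sum.inr (Sum.inr (i, j)))
        have e2 := hsx (Sum.inr (Sum.inr (i₁, j)))
        have e3 : (y i j - y i₁ j) -
          ((s (Sum.inr (Sum.inr (i, j))) - s (Sum.inr (Sum.inr (i₁, j))) : ℚ) : ℝ) =
          (x' (Sum.inr (Sum.inr (i, j))) - s (Sum.inr (Sum.inr (i, j)))) -
            (x' (Sum.inr (Sum.inr (i₁, j))) - s (Sum.inr (Sum.inr (i₁, j)))) := by
          push_cast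
          simp only [x', Sum.elim_inr]
          ring
        rw [e3]
        refine (abs_sub _ _).trans ?_
        have := (hη i).1
        linarith
    have h1 : ‖c (fun t => (s (Sum.inl t) : ℝ)) i₁‖ ≤ (∑ i, (‖c x i‖ + 1)) * ε := by
      have e1 : c (fun t => (s (Sum.inl t) : ℝ)) i₁ =
          -∑ i ∈ univ.erase i₁, c (fun t => (s (Sum.inl t) : ℝ)) i * T F (w i) := by
        rw [eq_neg_iff_add_eq_zero]
        exact hT.symm
      rw [e1, norm_neg, sum_mul]
      have e2 : ∀ i ∈ univ.erase i₁, ‖c (fun t => (s (Sum.inl t) : ℝ)) i * T F (w i)‖ ≤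
          (‖c x i‖ + 1) * ε := by
        intro i hi
        rw [norm_mul]
        exact mul_le_mul (hcn i) (hwT i hi) (norm_nonneg _) (by positivity)
      have e3 : ∑ i ∈ univ.erase i₁, (‖c x i‖ + 1) * ε ≤ ∑ i, (‖c x i‖ + 1) * ε :=
        sum_le_sum_of_subset_of_nonneg (erase_subset _ _) (fun i _ _ => by positivity)
      exact (norm_sum_le_of_le _ e2).trans e3
    have h2 : c x i₁ = (c x i₁ - c (fun t => (s (Sum.inl t) : ℝ)) i₁) +
        c (fun t => (s (Sum.inl t) : ℝ)) i₁ := by ring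
    rw [h2]
    refine (norm_add_le _ _).trans ?_
    have h3 := hcs i₁
    have h4 := (hη i₁).2.trans (min_le_right _ _)
    rw [hB, add_mul, one_mul]
    linarith
  by_contra hcon
  have h1 : 0 < ‖c x i₁‖ := norm_pos_iff.2 hcon
  obtain ⟨z, hz⟩ : ∃ z : ℝ, z = ‖c x i₁‖ := ⟨_, rfl⟩
  rw [← hz] at h1 hmain
  have h2 := hmain (z / (2 * B)) (div_pos h1 (mul_pos two_pos hB0))
  have h3 : B * (z / (2 * B)) = z / 2 := by
    have := hB0.ne'
    field_simp
  linarith

end Pool.Agent.K3h47.Rad
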