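import Pool.Agent.K3h47.Rad.Rep

/-!
# Lindemann-Weierstrass theorem for sums of approximable numbers and combinations of logarithms
-/

set_option autoImplicit false

namespace Pool.Agent.K3h47.Rad

open Pool.Agent.R347.LW Finset Complex
open scoped IntermediateField.algebraAdjoinAdjoin

/-- algebraic numbers and rationally approximable real numbers -/
def S (q : ℕ → ℕ) : Set ℂ := {z | IsAlgebraic ℚ z} ∪ {z | ∃ r : ℝ, RAppr q r ∧ (r : ℂ) = z}

/-- the field generated by the algebraic numbers and the rationally approximable real numbers -/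
noncomputable def E (q : ℕ → ℕ) : IntermediateField ℚ ℂ := IntermediateField.adjoin ℚ (S q)

variable {q : ℕ → ℕ} (hq : ∀ k, 2 ≤ q k)

include hq

theorem appr_of_alg {z : ℂ} (hz : IsAlgebraic ℚ z) : Appr q z := by
  have h1 : IsAlgebraic ℤ z := (IsFractionRing.isAlgebraic_iff ℤ ℚ ℂ).2 hz
  obtain ⟨P, hP0, hP⟩ := h1
  exact Appr.ofAlg hq P hP0 hP

theorem E_le : E q ≤ UK hq := by
  rw [E, IntermediateField.adjoin_le_iff]
  rintro z (hz | ⟨r, hr, rfl⟩)
  · exact appr_of_alg hq hz
  · exact RAppr.appr hq hr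

theorem exp_rl {u : ℂ} (hu : IsRL q u) : exp u ∈ UK hq := by
  obtain ⟨m, y, l, hy, hl, rfl⟩ := hu
  rw [exp_sum]
  exact prod_mem fun j _ => Appr.rpow hq (appr_of_alg hq (hl j)) (hy j)

theorem lwF (s : Finset ℂ) (hs : ∀ X ∈ s, Appr q X) (c : ℂ → ℂ) (hc : ∀ X ∈ s, Appr q (c X))
    (h : ∑ X ∈ s, c X * exp X = 0) : ∀ X ∈ s, c X = 0 := by
  intro X hX
  have e := s.equivFin
  have h2 := lwU hq s.card (fun k => ((e.symm k : s) : ℂ)) (fun k => c (e.symm k : s))
    (fun k => hs _ (e.symm k).2) (fun k => hc _ (e.symm k).2)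
    (fun a b hab => e.symm.injective (Subtype.ext hab)) (by
      rw [← h, ← Finset.sum_coe_sort s (fun X => c X * exp X)]
      exact Equiv.sum_comp e.symm (fun X : s => c X * exp (X : ℂ)))
  have h3 := h2 (e ⟨X, hX⟩)
  simpa using h3

omit hq in
theorem adjoin_int {z : ℂ} (hz : z ∈ Algebra.adjoin ℚ (S q)) :
    ∃ Q : MvPolynomial (S q) ℤ, z = MvPolynomial.aeval (fun k : S q => (k : ℂ)) Q := by
  have h1 : z ∈ Algebra.adjoin ℤ (S q) := by
    induction hz using Algebra.adjoin_induction with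
    | mem x hx => exact Algebra.subset_adjoin hx
    | algebraMap r => exact Algebra.subset_adjoin (Or.inl (isAlgebraic_algebraMap r))
    | add x y _ _ hx hy => exact add_mem hx hy
    | mul x y _ _ hx hy => exact mul_mem hx hy
  rw [Algebra.adjoin_eq_range] at h1
  obtain ⟨Q, hQ⟩ := h1
  exact ⟨Q, hQ.symm⟩

omit hq in
/-- finitely many elements of the ring generated by the algebraic and the rationally approximable
numbers -/
theorem exists_coef {ι : Type} [Fintype ι] (g : ι → ℂ) (hg : ∀ i, g i ∈ Algebra.adjoin ℚ (S q)) :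
    ∃ (P τ : Type) (_ : Fintype P) (_ : Fintype τ) (a : P → ℂ) (x : τ → ℝ)
      (C : ι → MvPolynomial (P ⊕ τ) ℤ), (∀ p, IsAlgebraic ℚ (a p)) ∧ (∀ t, RAppr q (x t)) ∧
      ∀ i, g i = MvPolynomial.aeval (Sum.elim a (fun t => (x t : ℂ))) (C i) := by
  classical
  choose Q hQ using fun i => adjoin_int (hg i)
  set V : Finset (S q) := univ.biUnion fun i => (Q i).vars with hV
  let P : Type := {k : S q // k ∈ V ∧ IsAlgebraic ℚ (k : ℂ)}
  let τ : Type := {k : S q // k ∈ V ∧ ¬ IsAlgebraic ℚ (k : ℂ)}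
  haveI : Finite P := (V.finite_toSet.subset (fun k hk => hk.1) :
    {k : S q | k ∈ V ∧ IsAlgebraic ℚ (k : ℂ)}.Finite)
  haveI : Finite τ := (V.finite_toSet.subset (fun k hk => hk.1) :
    {k : S q | k ∈ V ∧ ¬ IsAlgebraic ℚ (k : ℂ)}.Finite)
  have hτ : ∀ t : τ, ∃ r : ℝ, RAppr q r ∧ (r : ℂ) = (t.1 : ℂ) := by
    rintro ⟨⟨z, hz⟩, ht1, ht2⟩
    rcases hz with hz | hz
    · exact absurd hz ht2
    · exact hz
  choose x hx hxt using hτ
  let f : P ⊕ τ → S q := Sum.elim (fun p => p.1) (fun t => t.1)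
  have hf : Function.Injective f := by
    rintro (p | t) (p' | t') h
    · exact congrArg _ (Subtype.ext h)
    · have h' : p.1 = t'.1 := h
      exact absurd (h' ▸ p.2.2) t'.2.2
    · have h' : t.1 = p'.1 := h
      exact absurd (h' ▸ p'.2.2) t.2.2
    · exact congrArg _ (Subtype.ext h)
  have hC : ∀ i, ∃ C : MvPolynomial (P ⊕ τ) ℤ, MvPolynomial.rename f C = Q i := by
    intro i
    refine MvPolynomial.exists_rename_eq_of_vars_subset_range (Q i) f hf ?_
    intro k hk
    have hkV : k ∈ V := by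
      rw [hV, mem_biUnion]
      exact ⟨i, mem_univ _, hk⟩
    by_cases h : IsAlgebraic ℚ (k : ℂ)
    · exact ⟨Sum.inl ⟨k, hkV, h⟩, rfl⟩
    · exact ⟨Sum.inr ⟨k, hkV, h⟩, rfl⟩
  choose C hC using hC
  refine ⟨P, τ, Fintype.ofFinite P, Fintype.ofFinite τ, fun p => (p.1 : ℂ), x, C,
    fun p => p.2.2, hx, fun i => ?_⟩
  rw [hQ i, ← hC i, MvPolynomial.aeval_rename]
  congr 2
  funext k
  rcases k with p | t
  · rfl
  · exact (hxt t).symm

/-- **Lindemann-Weierstrass theorem for sums of approximable numbers and combinations of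
logarithms.** -/
theorem linU {ι : Type} [Fintype ι] (x u : ι → ℂ) (hx : ∀ i, Appr q (x i))
    (hu : ∀ i, IsRL q (u i))
    (hne : ∀ i j, i ≠ j → Transcendental ℚ (exp ((x i + u i) - (x j + u j)))) :
    LinearIndependent (E q) (fun i => exp (x i + u i)) := by
  classical
  have key : ∀ g : ι → ℂ, (∀ i, g i ∈ Algebra.adjoin ℚ (S q)) →
      ∑ i, g i * exp (x i + u i) = 0 → ∀ i, g i = 0 := by
    intro g hg hsum i₁
    have hgK : ∀ i, g i ∈ UK hq := fun i => by
      have h1 : Algebra.adjoin ℚ (S q) ≤ (UK hq).toSubalgebra := by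
        rw [Algebra.adjoin_le_iff]
        intro z hz
        exact E_le hq (IntermediateField.subset_adjoin ℚ _ hz)
      exact h1 (hg i)
    -- grouping
    have hgroup : ∑ i ∈ univ.filter (fun i => x i = x i₁), g i * exp (u i) = 0 := by
      refine lwF hq (univ.image x) ?_ (fun X => ∑ i ∈ univ.filter (fun i => x i = X),
        g i * exp (u i)) ?_ ?_ (x i₁) (mem_image_of_mem _ (mem_univ _))
      · intro X hX
        obtain ⟨i, -, rfl⟩ := mem_image.1 hX
        exact hx i
      · intro X _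
        exact (sum_mem fun i _ => mul_mem (hgK i) (exp_rl hq (hu i)) :
          ∑ i ∈ univ.filter (fun i => x i = X), g i * exp (u i) ∈ UK hq)
      · rw [← hsum, ← sum_fiberwise_of_maps_to (s := univ) (t := univ.image x) (g := x)
          (fun i hi => mem_image_of_mem _ hi)]
        refine sum_congr rfl fun X _ => ?_
        rw [sum_mul]
        refine sum_congr rfl fun i hi => ?_
        rw [(mem_filter.1 hi).2.symm, exp_add]
        ring
    obtain ⟨P, τ, hP, hτ, a, r, C, ha, hr, hC⟩ := exists_coef g hg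
    obtain ⟨J, hJ, l, y₀, y, hl, hind, hy₀, hy, hrep⟩ := exists_rep hq u hu
    have h1 := lemA (ι := {i : ι // x i = x i₁}) q hq l hl hind a ha r hr (fun i => y₀ i)
      (fun i => hy₀ i) (fun i => y i) (fun i => hy i) (fun i => C i) ⟨i₁, rfl⟩ ?_ ?_
    · rw [hC i₁]
      exact h1
    · rintro ⟨i, hi⟩ hii ⟨s₀, s, hs₀, hs⟩
      have hne' : i ≠ i₁ := fun h => hii (Subtype.ext h)
      have h2 := hne i i₁ hne'
      apply h2
      have h3 : x i + u i - (x i₁ + u i₁) = 2 * Real.pi * I * s₀ + ∑ j, (s j : ℂ) * l j := by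
        rw [hi, hrep i, hrep i₁]
        have h4 : ∑ j, (s j : ℂ) * l j = ∑ j, (y i j : ℂ) * l j - ∑ j, (y i₁ j : ℂ) * l j := by
          rw [← sum_sub_distrib]
          refine sum_congr rfl fun j _ => ?_
          have h5 : ((y i j - y i₁ j : ℝ) : ℂ) = ((s j : ℝ) : ℂ) := by rw [← hs j]
          push_cast at h5
          rw [← h5]
          ring
        have h6 : ((y₀ i - y₀ i₁ : ℝ) : ℂ) = ((s₀ : ℝ) : ℂ) := by rw [← hs₀]
        push_cast at h6
        rw [h4, ← h6]
        ring
      rw [h3]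
      exact exp_alg l hl s₀ s
    · rw [← hgroup, sum_subtype (univ.filter (fun i => x i = x i₁))
        (p := fun i => x i = x i₁) (by simp) (fun i => g i * exp (u i))]
      refine sum_congr rfl fun i _ => ?_
      rw [← hC, hrep i]
  rw [E, ← LinearIndependent.iff_fractionRing (Algebra.adjoin ℚ (S q))]
  rw [Fintype.linearIndependent_iff]
  intro g hg i
  have h1 := key (fun i => (g i : ℂ)) (fun i => (g i).2) (by
    rw [← hg]
    refine sum_congr rfl fun i _ => ?_
    rw [Algebra.smul_def]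
    rfl) i
  exact Subtype.ext h1

end Pool.Agent.K3h47.Rad
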