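import Mathlib

/-!
# Radicals of bounded height in a number field
-/

set_option autoImplicit false

namespace Pool.Agent.K3h47.Rad

open Finset

theorem exists_den {F : Type*} [Field F] [NumberField F] (S : Finset F) :
    ∃ A : ℕ, A ≠ 0 ∧ ∀ x ∈ S, IsIntegral ℤ ((A : F) * x) := by
  classical
  induction S using Finset.induction_on with
  | empty => exact ⟨1, one_ne_zero, by simp⟩
  | insert x S hx ih =>
    obtain ⟨A, hA, hAS⟩ := ih
    obtain ⟨b, hb, hbx⟩ : ∃ b : ℤ, b ≠ 0 ∧ IsIntegral ℤ ((b : F) * x) := by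
      have h1 : IsAlgebraic ℚ x := Algebra.IsAlgebraic.isAlgebraic x
      have h2 : IsAlgebraic ℤ x := (IsFractionRing.isAlgebraic_iff ℤ ℚ F).2 h1
      obtain ⟨y, hy, hyx⟩ := h2.exists_integral_multiple
      refine ⟨y, hy, ?_⟩
      rw [zsmul_eq_mul] at hyx
      exact hyx
    have hint : ∀ n : ℤ, IsIntegral ℤ (n : F) := fun n => by
      have h := isIntegral_algebraMap (R := ℤ) (A := F) (x := n)
      simpa using h
    refine ⟨A * b.natAbs, Nat.mul_ne_zero hA (Int.natAbs_ne_zero.2 hb), fun y hy => ?_⟩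
    have habs : ((b.natAbs : ℕ) : F) = ((b.sign : ℤ) : F) * (b : F) := by
      have h1 : ((b.natAbs : ℕ) : ℤ) = b.sign * b := by
        rw [Int.sign_mul_self_eq_abs, Int.natCast_natAbs]
      rw [← Int.cast_mul, ← h1, Int.cast_natCast]
    rcases Finset.mem_insert.1 hy with rfl | hy
    · have h1 : ((A * b.natAbs : ℕ) : F) * y = (A : F) * ((b.sign : ℤ) : F) * ((b : F) * y) := by
        rw [Nat.cast_mul, habs]
        ring
      rw [h1]
      exact ((by simpa using hint A : IsIntegral ℤ (A : F)).mul (hint _)).mul hbx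
    · have h1 : ((A * b.natAbs : ℕ) : F) * y =
          (((b.natAbs : ℕ) : ℤ) : F) * ((A : F) * y) := by
        rw [Nat.cast_mul, Int.cast_natCast]
        ring
      rw [h1]
      exact (hint _).mul (hAS y hy)

theorem north {F J : Type*} [Field F] [NumberField F] [Fintype J] (α : J → F)
    (c : ℕ) :
    {f : F | ∃ (M : ℕ) (e : J → ℤ), M ≠ 0 ∧ ∑ j, (e j).natAbs ≤ c * M ∧
      f ^ M = ∏ j, α j ^ e j}.Finite := by
  classical
  obtain ⟨A, hA, hAS⟩ := exists_den (univ.image α ∪ univ.image (fun j => (α j)⁻¹))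
  have hA1 : ∀ j, IsIntegral ℤ ((A : F) * α j) := fun j => hAS _ (by simp)
  have hA2 : ∀ j, IsIntegral ℤ ((A : F) * (α j)⁻¹) := fun j => hAS _ (by simp)
  have hAF : (A : F) ≠ 0 := by exact_mod_cast hA
  obtain ⟨R, hR1, hR⟩ : ∃ R : ℝ, 1 ≤ R ∧ ∀ (φ : F →+* ℂ) (j : J), ‖φ (α j)‖ ≤ R ∧
      ‖φ (α j)‖⁻¹ ≤ R := by
    refine ⟨1 + ∑ φ : F →+* ℂ, ∑ j, (‖φ (α j)‖ + ‖φ (α j)‖⁻¹), ?_, fun φ j => ?_⟩
    · have : 0 ≤ ∑ φ : F →+* ℂ, ∑ j, (‖φ (α j)‖ + ‖φ (α j)‖⁻¹) :=
        sum_nonneg fun φ _ => sum_nonneg fun j _ => by positivity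
      linarith
    · have h1 : ∑ j, (‖φ (α j)‖ + ‖φ (α j)‖⁻¹) ≤
          ∑ φ : F →+* ℂ, ∑ j, (‖φ (α j)‖ + ‖φ (α j)‖⁻¹) :=
        single_le_sum (f := fun φ : F →+* ℂ => ∑ j, (‖φ (α j)‖ + ‖φ (α j)‖⁻¹))
          (fun φ _ => sum_nonneg fun j _ => by positivity) (mem_univ φ)
      have h2 : ‖φ (α j)‖ + ‖φ (α j)‖⁻¹ ≤ ∑ j, (‖φ (α j)‖ + ‖φ (α j)‖⁻¹) :=
        single_le_sum (f := fun j => ‖φ (α j)‖ + ‖φ (α j)‖⁻¹)
          (fun j _ => by positivity) (mem_univ j)
      have h3 : 0 ≤ ‖φ (α j)‖ := norm_nonneg _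
      have h4 : 0 ≤ ‖φ (α j)‖⁻¹ := by positivity
      constructor <;> linarith
  have hfin := NumberField.Embeddings.finite_of_norm_le F ℂ ((A : ℝ) ^ c * R ^ c)
  have hinj : Function.Injective (fun f : F => (A : F) ^ c * f) :=
    mul_right_injective₀ (pow_ne_zero _ hAF)
  refine (hfin.preimage (hinj.injOn)).subset ?_
  rintro f ⟨M, e, hM, he, hf⟩
  rw [Set.mem_preimage]
  refine ⟨?_, fun φ => ?_⟩
  · apply IsIntegral.of_pow (Nat.pos_of_ne_zero hM)
    have h1 : ((A : F) ^ c * f) ^ M = (A : F) ^ (c * M - ∑ j, (e j).natAbs) *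
        ∏ j, ((A : F) ^ (e j).natAbs * α j ^ e j) := by
      rw [mul_pow, hf, prod_mul_distrib, prod_pow_eq_pow_sum, ← mul_assoc, ← pow_mul, ← pow_add,
        Nat.sub_add_cancel he]
    rw [h1]
    refine IsIntegral.mul ?_ (IsIntegral.prod _ fun j _ => ?_)
    · refine IsIntegral.pow ?_ _
      have h := isIntegral_algebraMap (R := ℤ) (A := F) (x := (A : ℤ))
      simpa using h
    · rcases Int.natAbs_eq (e j) with h | h
      · have h2 : (A : F) ^ (e j).natAbs * α j ^ e j = ((A : F) * α j) ^ (e j).natAbs := by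
          conv_lhs => rw [h]
          rw [zpow_natCast, Int.natAbs_natCast, mul_pow]
        rw [h2]
        exact (hA1 j).pow _
      · have h2 : (A : F) ^ (e j).natAbs * α j ^ e j = ((A : F) * (α j)⁻¹) ^ (e j).natAbs := by
          conv_lhs => rw [h]
          rw [zpow_neg, zpow_natCast, Int.natAbs_neg, Int.natAbs_natCast, mul_pow, inv_pow]
        rw [h2]
        exact (hA2 j).pow _
  · rw [map_mul, norm_mul, map_pow, map_natCast, norm_pow, Complex.norm_natCast]
    gcongr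
    have h1 : ‖φ f‖ ^ M ≤ (R ^ c) ^ M := by
      rw [← norm_pow, ← map_pow, hf, map_prod, norm_prod]
      calc ∏ j, ‖φ (α j ^ e j)‖ ≤ ∏ j, R ^ (e j).natAbs := by
            refine prod_le_prod (fun j _ => norm_nonneg _) fun j _ => ?_
            rw [map_zpow₀, norm_zpow]
            rcases Int.natAbs_eq (e j) with h | h
            · conv_lhs => rw [h]
              rw [zpow_natCast]
              exact pow_le_pow_left₀ (norm_nonneg _) (hR φ j).1 _
            · conv_lhs => rw [h]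
              rw [zpow_neg, zpow_natCast, ← inv_pow]
              exact pow_le_pow_left₀ (by positivity) (hR φ j).2 _
        _ = R ^ ∑ j, (e j).natAbs := by rw [prod_pow_eq_pow_sum]
        _ ≤ R ^ (c * M) := pow_le_pow_right₀ hR1 he
        _ = _ := by rw [pow_mul]
    exact le_of_pow_le_pow_left₀ hM (by positivity) h1

/-- the roots of unity in a number field have bounded orders -/
theorem exists_W (F : Type*) [Field F] [NumberField F] :
    ∃ W : ℕ, W ≠ 0 ∧ ∀ x : F, ∀ m : ℕ, m ≠ 0 → x ^ m = 1 → x ^ W = 1 := by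
  classical
  have hfin := NumberField.Embeddings.finite_of_norm_le F ℂ 1
  set S : Finset F := hfin.toFinset.filter (fun x => IsOfFinOrder x) with hS
  refine ⟨∏ x ∈ S, orderOf x, ?_, fun x m hm hx => ?_⟩
  · rw [prod_ne_zero_iff]
    intro x hx
    rw [hS, mem_filter] at hx
    exact (orderOf_pos_iff.2 hx.2).ne'
  · have hxf : IsOfFinOrder x := isOfFinOrder_iff_pow_eq_one.2 ⟨m, Nat.pos_of_ne_zero hm, hx⟩
    have hxS : x ∈ S := by
      rw [hS, mem_filter, Set.Finite.mem_toFinset]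
      refine ⟨⟨?_, fun φ => ?_⟩, hxf⟩
      · apply IsIntegral.of_pow (Nat.pos_of_ne_zero hm)
        rw [hx]
        exact isIntegral_one
      · have h1 : ‖φ x‖ ^ m = 1 := by rw [← norm_pow, ← map_pow, hx, map_one, norm_one]
        exact ((pow_eq_one_iff_of_nonneg (norm_nonneg _) hm).1 h1).le
    exact orderOf_dvd_iff_pow_eq_one.1 (dvd_prod_of_mem _ hxS)

end Pool.Agent.K3h47.Rad
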