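import Pool.Agent.K3h47.Rad.Trace
import Pool.Agent.K3h47.Rad.Cyc
import Pool.Agent.K3h47.Rad.North

/-!
# Normalized traces of radicals whose exponents are near to irrational numbers
-/

set_option autoImplicit false

namespace Pool.Agent.K3h47.Rad

open Finset Complex

variable (F : IntermediateField ℚ ℂ)

open Classical in
/-- the normalized trace to `F`, as a function on `ℂ` -/
noncomputable def T (x : ℂ) : ℂ :=
  if h : x ∈ algebraicClosure F ℂ then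
    algebraMap F ℂ (Algebra.normalizedTrace F (algebraicClosure F ℂ) ⟨x, h⟩) else 0

theorem T_of_mem {x : ℂ} (h : x ∈ algebraicClosure F ℂ) :
    T F x = algebraMap F ℂ (Algebra.normalizedTrace F (algebraicClosure F ℂ) ⟨x, h⟩) :=
  dif_pos h

theorem T_one : T F 1 = 1 := by
  rw [T_of_mem F (one_mem _)]
  have h1 : (⟨1, one_mem _⟩ : algebraicClosure F ℂ) = algebraMap F (algebraicClosure F ℂ) 1 := by
    rw [map_one]; rfl
  rw [h1, Algebra.normalizedTrace_algebraMap_apply_eq_self, map_one]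

theorem T_sum {ι : Type*} (s : Finset ι) (c x : ι → ℂ) (hc : ∀ i ∈ s, c i ∈ F)
    (hx : ∀ i ∈ s, x i ∈ algebraicClosure F ℂ) :
    T F (∑ i ∈ s, c i * x i) = ∑ i ∈ s, c i * T F (x i) := by
  classical
  set Ω := algebraicClosure F ℂ with hΩ
  have hcx : ∀ i ∈ s, c i * x i ∈ Ω := fun i hi =>
    mul_mem (algebraMap_mem Ω (⟨c i, hc i hi⟩ : F)) (hx i hi)
  rw [T_of_mem F (sum_mem hcx)]
  have h1 : (⟨∑ i ∈ s, c i * x i, sum_mem hcx⟩ : Ω) =
      ∑ i ∈ s.attach, (⟨c i, hc i i.2⟩ : F) • (⟨x i, hx i i.2⟩ : Ω) := by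
    apply Subtype.ext
    change ∑ i ∈ s, c i * x i = ((∑ i ∈ s.attach, (⟨c i, hc i i.2⟩ : F) • (⟨x i, hx i i.2⟩ : Ω) :
      Ω) : ℂ)
    push_cast
    exact (sum_attach s (fun i => c i * x i)).symm
  rw [h1, map_sum, map_sum, ← sum_attach s (fun i => c i * T F (x i))]
  refine sum_congr rfl fun i _ => ?_
  rw [map_smul, smul_eq_mul, map_mul, T_of_mem F (hx i i.2)]
  rfl

theorem T_mul {c x : ℂ} (hc : c ∈ F) (hx : x ∈ algebraicClosure F ℂ) : T F (c * x) = c * T F x := by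
  have := T_sum F ({()} : Finset Unit) (fun _ => c) (fun _ => x) (fun _ _ => hc) (fun _ _ => hx)
  simpa using this

variable {F} {J : Type*} [Fintype J]

/-- radicals -/
noncomputable def rad (l : J → ℂ) (s₀ : ℚ) (s : J → ℚ) : ℂ :=
  exp (2 * Real.pi * I * s₀ + ∑ j, (s j : ℂ) * l j)

theorem common_den (s₀ : ℚ) (s : J → ℚ) : ∃ (v : ℕ) (u₀ : ℤ) (u : J → ℤ), v ≠ 0 ∧
    (v : ℂ) * s₀ = u₀ ∧ ∀ j, (v : ℂ) * s j = u j := by
  classical
  have h1 : ∀ (q : ℚ) (n : ℕ), ∃ u : ℤ, ((n * q.den : ℕ) : ℂ) * q = u := by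
    intro q n
    refine ⟨n * q.num, ?_⟩
    have h2 : (q.den : ℚ) * q = q.num := Rat.den_mul_eq_num q
    have h3 : (q.den : ℂ) * q = q.num := by exact_mod_cast congrArg (fun t : ℚ => (t : ℂ)) h2
    push_cast
    rw [mul_assoc, h3]
  set v : ℕ := s₀.den * ∏ j, (s j).den with hv
  have hv0 : v ≠ 0 := mul_ne_zero s₀.den_nz (prod_ne_zero_iff.2 fun j _ => (s j).den_nz)
  obtain ⟨u₀, hu₀⟩ := h1 s₀ (∏ j, (s j).den)
  have h2 : ∀ j, ∃ u : ℤ, (v : ℂ) * s j = u := by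
    intro j
    obtain ⟨u, hu⟩ := h1 (s j) (s₀.den * ∏ i ∈ univ.erase j, (s i).den)
    refine ⟨u, ?_⟩
    rw [← hu, hv, ← prod_erase_mul univ (fun i => (s i).den) (mem_univ j), mul_assoc]
  choose u hu using h2
  refine ⟨v, u₀, u, hv0, ?_, hu⟩
  rw [← hu₀, hv, mul_comm s₀.den]

theorem rad_pow (l : J → ℂ) (s₀ : ℚ) (s : J → ℚ) (v : ℕ) (u₀ : ℤ) (u : J → ℤ)
    (h₀ : (v : ℂ) * s₀ = u₀) (h : ∀ j, (v : ℂ) * s j = u j) :
    rad l s₀ s ^ v = ∏ j, exp (l j) ^ u j := by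
  rw [rad, ← exp_nat_mul, mul_add, exp_add, mul_sum, exp_sum]
  have h1 : exp (v * (2 * Real.pi * I * s₀)) = 1 := by
    have h2 : (v : ℂ) * (2 * Real.pi * I * s₀) = u₀ * (2 * Real.pi * I) := by
      rw [← h₀]; ring
    rw [h2]
    exact exp_int_mul_two_pi_mul_I u₀
  rw [h1, one_mul]
  refine prod_congr rfl fun j _ => ?_
  rw [← exp_int_mul, ← h j]
  ring_nf

theorem rad_mem (l : J → ℂ) (hl : ∀ j, exp (l j) ∈ F) (s₀ : ℚ) (s : J → ℚ) :
    rad l s₀ s ∈ algebraicClosure F ℂ := by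
  obtain ⟨v, u₀, u, hv, h₀, h⟩ := common_den s₀ s
  have h1 := rad_pow l s₀ s v u₀ u h₀ h
  rw [mem_algebraicClosure_iff]
  have h2 : ∏ j, exp (l j) ^ u j ∈ F := prod_mem fun j _ => zpow_mem (hl j) _
  refine (IsIntegral.of_pow (Nat.pos_of_ne_zero hv) ?_).isAlgebraic
  rw [h1]
  exact isIntegral_algebraMap (x := (⟨_, h2⟩ : F))

theorem finV [FiniteDimensional ℚ F] (l : J → ℂ) (hl : ∀ j, exp (l j) ∈ F)
    (hind : ∀ (r₀ : ℚ) (r : J → ℚ), 2 * Real.pi * I * r₀ + ∑ j, (r j : ℂ) * l j = 0 →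
      ∀ j, r j = 0) (S : ℕ) :
    {s : J → ℚ | (∀ j, |s j| ≤ S) ∧ ∃ s₀ : ℚ, T F (rad l s₀ s) ≠ 0}.Finite := by
  classical
  haveI : NumberField F := ⟨⟩
  obtain ⟨W, hW0, hW⟩ := exists_W F
  set α : J → F := fun j => ⟨exp (l j), hl j⟩ with hα
  have hN := north α (W * (Fintype.card J * S))
  set N := {f : F | ∃ (M : ℕ) (e : J → ℤ), M ≠ 0 ∧
    ∑ j, (e j).natAbs ≤ (W * (Fintype.card J * S)) * M ∧ f ^ M = ∏ j, α j ^ e j} with hNdef
  let R : F → Set (J → ℚ) := fun f => {s | f ≠ 0 ∧ ∃ (s₀ : ℚ) (ζ : ℂ) (m : ℕ), m ≠ 0 ∧ ζ ^ m = 1 ∧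
    rad l s₀ s ^ W = ζ * f}
  have hR : ∀ f : F, (R f).Subsingleton := by
    rintro f s ⟨hf, s₀, ζ, m, hm, hζ, hs⟩ s' ⟨-, s₀', ζ', m', hm', hζ', hs'⟩
    have hf0 : (f : ℂ) ≠ 0 := by exact_mod_cast hf
    have hζ0' : ζ' ≠ 0 := by
      rintro rfl
      rw [zero_pow hm'] at hζ'
      exact zero_ne_one hζ'
    have h1 : exp ((W * (m * m') : ℕ) * ((2 * Real.pi * I * s₀ + ∑ j, (s j : ℂ) * l j) -
        (2 * Real.pi * I * s₀' + ∑ j, (s' j : ℂ) * l j))) = 1 := by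
      rw [exp_nat_mul, exp_sub]
      change (rad l s₀ s / rad l s₀' s') ^ (W * (m * m')) = 1
      rw [pow_mul, div_pow, hs, hs', mul_div_mul_right _ _ hf0, div_pow, pow_mul, hζ, one_pow,
        mul_comm m, pow_mul, hζ', one_pow, div_one]
    rw [exp_eq_one_iff] at h1
    obtain ⟨k, hk⟩ := h1
    have hWm : ((W * (m * m') : ℕ) : ℚ) ≠ 0 := by
      exact_mod_cast mul_ne_zero hW0 (mul_ne_zero hm hm')
    funext j
    have h2 := hind ((W * (m * m') : ℕ) * (s₀ - s₀') - k) (fun j => (W * (m * m') : ℕ) * (s j - s' j))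
      ?_ j
    · rcases mul_eq_zero.1 h2 with h3 | h3
      · exact absurd h3 hWm
      · exact sub_eq_zero.1 h3
    · have e1 : ∑ j, (((W * (m * m') : ℕ) * (s j - s' j) : ℚ) : ℂ) * l j =
          (W * (m * m') : ℕ) * (∑ j, (s j : ℂ) * l j - ∑ j, (s' j : ℂ) * l j) := by
        rw [← sum_sub_distrib, mul_sum]
        refine sum_congr rfl fun j _ => ?_
        push_cast
        ring
      rw [e1]
      push_cast at hk ⊢
      linear_combination hk
  refine (hN.biUnion (t := fun f => R f) fun f _ => (hR f).finite).subset ?_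
  rintro s ⟨hsS, s₀, hT⟩
  rw [Set.mem_iUnion₂]
  obtain ⟨v, u₀, u, hv, h₀, h⟩ := common_den s₀ s
  have h1 := rad_pow l s₀ s v u₀ u h₀ h
  have hmem := rad_mem l hl s₀ s
  rw [T_of_mem F hmem] at hT
  have hT' : Algebra.normalizedTrace F (algebraicClosure F ℂ) ⟨rad l s₀ s, hmem⟩ ≠ 0 := by
    intro h0
    rw [h0, map_zero] at hT
    exact hT rfl
  have hw : (⟨rad l s₀ s, hmem⟩ : algebraicClosure F ℂ) ^ v =
      algebraMap F (algebraicClosure F ℂ) (∏ j, α j ^ u j) := by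
    apply Subtype.ext
    have e1 : ((algebraMap F (algebraicClosure F ℂ) (∏ j, α j ^ u j) : algebraicClosure F ℂ) : ℂ) =
        ((∏ j, α j ^ u j : F) : ℂ) := rfl
    rw [e1]
    push_cast
    rw [h1]
    refine prod_congr rfl fun j _ => ?_
    push_cast
    rfl
  haveI : IsAlgClosed (algebraicClosure F ℂ) := (algebraicClosure.isAlgClosure F ℂ).isAlgClosed
  obtain ⟨ζ, m, f, hm, hζ, hf, hwf⟩ := schinzel W hW (⟨rad l s₀ s, hmem⟩ : algebraicClosure F ℂ)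
    (by
      intro h0
      exact exp_ne_zero _ (congrArg Subtype.val h0)) v hv _ hw hT'
  have hwf' : rad l s₀ s ^ W = (ζ : ℂ) * f := congrArg Subtype.val hwf
  have hζ' : (ζ : ℂ) ^ m = 1 := by
    have := congrArg Subtype.val hζ
    simpa using this
  refine ⟨f, ⟨v * m, fun j => u j * (W * m : ℕ), mul_ne_zero hv hm, ?_, ?_⟩,
    ⟨hf, s₀, ζ, m, hm, hζ', hwf'⟩⟩
  · have e1 : ∀ j, (u j).natAbs ≤ v * S := by
      intro j
      have e2 : (v : ℚ) * s j = u j := by exact_mod_cast h j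
      have e3 : |(u j : ℚ)| ≤ v * S := by
        rw [← e2, abs_mul, abs_of_nonneg (by positivity : (0 : ℚ) ≤ v)]
        exact mul_le_mul_of_nonneg_left (hsS j) (by positivity)
      have e4 : |u j| ≤ v * S := by exact_mod_cast e3
      rw [← Int.natCast_natAbs] at e4
      exact_mod_cast e4
    calc ∑ j, (u j * (W * m : ℕ)).natAbs ≤ ∑ j : J, (v * S) * (W * m) := by
          refine sum_le_sum fun j _ => ?_
          rw [Int.natAbs_mul, Int.natAbs_natCast]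
          exact Nat.mul_le_mul_right _ (e1 j)
      _ = _ := by
          rw [sum_const, card_univ, smul_eq_mul]
          ring
  · apply (algebraMap F ℂ).injective
    rw [map_pow, map_prod]
    have e1 : (algebraMap F ℂ f) ^ (v * m) = (rad l s₀ s ^ W) ^ (v * m) := by
      rw [hwf', mul_pow, mul_comm v m, pow_mul (ζ : ℂ), hζ', one_pow, one_mul]
      rfl
    rw [e1, ← pow_mul, mul_comm W, mul_assoc, pow_mul, h1, ← prod_pow]
    refine prod_congr rfl fun j _ => ?_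
    rw [map_zpow₀, ← zpow_natCast, ← zpow_mul]
    congr 1
    push_cast
    ring

theorem exists_delta {ι : Type*} (V : Set ι) (hV : V.Finite) (f : ι → ℝ) (hf : ∀ v ∈ V, 0 < f v) :
    ∃ δ : ℝ, 0 < δ ∧ δ ≤ 1 ∧ ∀ v ∈ V, δ < f v := by
  classical
  induction V, hV using Set.Finite.induction_on with
  | empty => exact ⟨1, one_pos, le_rfl, by simp⟩
  | @insert a V ha hV ih =>
    obtain ⟨δ, h0, h1, h2⟩ := ih (fun v hv => hf v (Set.mem_insert_of_mem _ hv))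
    have h3 := hf a (Set.mem_insert _ _)
    refine ⟨min δ (f a / 2), by positivity, (min_le_left _ _).trans h1, ?_⟩
    rintro v (rfl | hv)
    · exact (min_le_right _ _).trans_lt (by linarith)
    · exact (min_le_left _ _).trans_lt (h2 v hv)

theorem den_delta (y₀ : ℝ) (hy₀ : Irrational y₀) (m₀ : ℕ) :
    ∃ δ : ℝ, 0 < δ ∧ δ ≤ 1 ∧ ∀ s₀ : ℚ, |y₀ - s₀| ≤ δ → m₀ ≤ s₀.den := by
  set N : ℕ := (m₀).factorial with hN
  have hN0 : (0 : ℝ) < N := by exact_mod_cast Nat.factorial_pos _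
  have h1 : 0 < |N * y₀ - round (N * y₀)| := by
    rw [abs_pos, sub_ne_zero]
    have h2 : Irrational (N * y₀) := hy₀.natCast_mul (Nat.factorial_ne_zero _)
    exact h2.ne_int _
  refine ⟨min 1 (|N * y₀ - round (N * y₀)| / (2 * N)), by positivity, min_le_left _ _, ?_⟩
  intro s₀ hs
  by_contra hlt
  rw [not_le] at hlt
  have h2 : s₀.den ∣ N := Nat.dvd_factorial s₀.den_pos hlt.le
  obtain ⟨c, hc⟩ := h2
  have h3 : (N : ℝ) * s₀ = ((c * s₀.num : ℤ) : ℝ) := by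
    have e1 : (s₀.den : ℚ) * s₀ = s₀.num := Rat.den_mul_eq_num s₀
    have e2 : (s₀.den : ℝ) * s₀ = s₀.num := by exact_mod_cast congrArg (fun t : ℚ => (t : ℝ)) e1
    rw [hc]
    push_cast
    rw [mul_comm (s₀.den : ℝ), mul_assoc, e2]
  have h4 : |N * y₀ - round (N * y₀)| ≤ N * |y₀ - s₀| := by
    calc |N * y₀ - round (N * y₀)| ≤ |N * y₀ - ((c * s₀.num : ℤ) : ℝ)| := round_le _ _
      _ = N * |y₀ - s₀| := by
        rw [← h3, ← mul_sub, abs_mul, abs_of_pos hN0]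
  have h5 : N * |y₀ - s₀| ≤ N * (|N * y₀ - round (N * y₀)| / (2 * N)) :=
    mul_le_mul_of_nonneg_left (hs.trans (min_le_right _ _)) hN0.le
  have h6 : (N : ℝ) * (|N * y₀ - round (N * y₀)| / (2 * N)) = |N * y₀ - round (N * y₀)| / 2 := by
    field_simp
  linarith

theorem near [FiniteDimensional ℚ F] (l : J → ℂ) (hl : ∀ j, exp (l j) ∈ F)
    (hind : ∀ (r₀ : ℚ) (r : J → ℚ), 2 * Real.pi * I * r₀ + ∑ j, (r j : ℂ) * l j = 0 →
      ∀ j, r j = 0) (y₀ : ℝ) (y : J → ℝ)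
    (hy : (∃ j, Irrational (y j)) ∨ (∃ r : J → ℚ, (∀ j, y j = r j) ∧ Irrational y₀ ∧
      exp (∑ j, (r j : ℂ) * l j) ∈ F)) (ε : ℝ) (hε : 0 < ε) :
    ∃ δ : ℝ, 0 < δ ∧ ∀ (s₀ : ℚ) (s : J → ℚ), |y₀ - s₀| ≤ δ → (∀ j, |y j - s j| ≤ δ) →
      ‖T F (rad l s₀ s)‖ ≤ ε := by
  classical
  haveI : NumberField F := ⟨⟩
  set S : ℕ := ⌈1 + ∑ j, |y j|⌉₊ with hS
  have hfin := finV l hl hind S
  set V := {s : J → ℚ | (∀ j, |s j| ≤ S) ∧ ∃ s₀ : ℚ, T F (rad l s₀ s) ≠ 0} with hV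
  have hSs : ∀ δ ≤ (1 : ℝ), ∀ s : J → ℚ, (∀ j, |y j - s j| ≤ δ) → ∀ j, |s j| ≤ S := by
    intro δ hδ s hs j
    have h1 : |(s j : ℝ)| ≤ 1 + ∑ j, |y j| := by
      have h2 : (s j : ℝ) = y j - (y j - s j) := by ring
      have h3 : |y j| ≤ ∑ j, |y j| := single_le_sum (f := fun j => |y j|)
        (fun _ _ => abs_nonneg _) (mem_univ j)
      rw [h2]
      refine (abs_sub _ _).trans ?_
      have := hs j
      linarith
    have h2 : |(s j : ℝ)| ≤ S := h1.trans (Nat.le_ceil _)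
    exact_mod_cast h2
  rcases hy with ⟨j, hj⟩ | ⟨r, hr, hy₀, hg⟩
  · obtain ⟨δ, hδ0, hδ1, hδ⟩ := exists_delta V hfin (fun s => |y j - s j|) (fun s _ => by
      rw [abs_pos, sub_ne_zero]
      exact hj.ne_rat _)
    refine ⟨δ, hδ0, fun s₀ s _ hs => ?_⟩
    by_cases hT : T F (rad l s₀ s) = 0
    · rw [hT, norm_zero]
      exact hε.le
    · exact absurd (hs j) (not_le.2 (hδ s ⟨hSs δ hδ1 s hs, s₀, hT⟩))
  · set g : ℂ := exp (∑ j, (r j : ℂ) * l j) with hgdef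
    obtain ⟨m₀, hm₀⟩ := trace_root_small (F := F) (algebraMap (algebraicClosure F ℂ) ℂ)
      (ε / (‖g‖ + 1)) (by positivity)
    obtain ⟨δ₁, h10, h11, h12⟩ := exists_delta (V \ {r}) (hfin.subset Set.diff_subset)
      (fun s => ∑ j, |y j - s j|) (fun s hs => by
        have hne : s ≠ r := hs.2
        obtain ⟨j, hj⟩ := Function.ne_iff.1 hne
        refine sum_pos' (fun j _ => abs_nonneg _) ⟨j, mem_univ j, ?_⟩
        rw [abs_pos, sub_ne_zero, hr]
        exact_mod_cast (Ne.symm hj))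
    obtain ⟨δ₂, h20, h21, h22⟩ := den_delta y₀ hy₀ m₀
    set δ : ℝ := min (δ₁ / (Fintype.card J + 1)) δ₂ with hδ
    have hδ1 : δ ≤ 1 := (min_le_right _ _).trans h21
    refine ⟨δ, by positivity, fun s₀ s hs₀ hs => ?_⟩
    by_cases hT : T F (rad l s₀ s) = 0
    · rw [hT, norm_zero]
      exact hε.le
    have hsV : s ∈ V := ⟨hSs δ hδ1 s hs, s₀, hT⟩
    have hsr : s = r := by
      by_contra hne
      have h1 := h12 s ⟨hsV, hne⟩
      have h2 : ∑ j, |y j - s j| ≤ ∑ j : J, δ₁ / (Fintype.card J + 1) :=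
        sum_le_sum fun j _ => (hs j).trans (min_le_left _ _)
      rw [sum_const, card_univ, nsmul_eq_mul] at h2
      have h3 : (Fintype.card J : ℝ) * (δ₁ / (Fintype.card J + 1)) ≤ δ₁ := by
        rw [mul_div_assoc', div_le_iff₀ (by positivity)]
        nlinarith
      linarith
    subst hsr
    have hden := h22 s₀ (hs₀.trans (min_le_right _ _))
    have hprim := isPrimitiveRoot_exp_rat s₀
    set ζ : ℂ := exp (2 * Real.pi * I * s₀) with hζ
    have hζΩ : ζ ∈ algebraicClosure F ℂ := by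
      rw [mem_algebraicClosure_iff]
      refine (IsIntegral.of_pow s₀.den_pos ?_).isAlgebraic
      rw [hprim.pow_eq_one]
      exact isIntegral_one
    have h1 : rad l s₀ s = g * ζ := by
      rw [rad, exp_add, mul_comm]
    have h2 : T F (rad l s₀ s) = g * T F ζ := by
      rw [h1, T_mul F hg hζΩ]
    have h3 : IsPrimitiveRoot (⟨ζ, hζΩ⟩ : algebraicClosure F ℂ) s₀.den := by
      have e1 : IsPrimitiveRoot (algebraMap (algebraicClosure F ℂ) ℂ ⟨ζ, hζΩ⟩) s₀.den := hprim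
      exact IsPrimitiveRoot.of_map_of_injective e1 (algebraMap (algebraicClosure F ℂ) ℂ).injective
    have h4 := hm₀ s₀.den hden s₀.den_nz _ h3
    have h5 : ‖T F ζ‖ ≤ ε / (‖g‖ + 1) := by
      rw [T_of_mem F hζΩ]
      exact h4
    rw [h2, norm_mul]
    calc ‖g‖ * ‖T F ζ‖ ≤ (‖g‖ + 1) * (ε / (‖g‖ + 1)) := by gcongr; linarith
      _ = ε := by field_simp

end Pool.Agent.K3h47.Rad
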