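import Pool.Agent.K3h47.Rad.LemA

/-!
# Combinations of logarithms of algebraic numbers with rationally approximable coefficients
-/

set_option autoImplicit false

namespace Pool.Agent.K3h47.Rad

open Pool.Agent.R347.LW Finset Complex

variable {q : ℕ → ℕ}

theorem RAppr.ofRat (hq : ∀ k, 2 ≤ q k) (r : ℚ) : RAppr q (r : ℝ) := by
  refine ⟨r.den, fun κ => ⟨0, fun k _ => ⟨r.num, r.den, r.den_pos, ?_, ?_⟩⟩⟩
  · have := le_tow r.den (q k)
    omega
  · have h1 : (r : ℝ) = (r.num : ℝ) / r.den := by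
      exact_mod_cast (Rat.num_div_den r).symm
    rw [h1, sub_self, abs_zero]
    positivity

theorem RAppr.add (hq : ∀ k, 2 ≤ q k) {x y : ℝ} (hx : RAppr q x) (hy : RAppr q y) :
    RAppr q (x + y) := by
  obtain ⟨h, hh⟩ := hx
  obtain ⟨h', hh'⟩ := hy
  refine ⟨h + h' + 2, fun κ => ?_⟩
  obtain ⟨k₀, hk₀⟩ := hh (κ + 1)
  obtain ⟨k₀', hk₀'⟩ := hh' (κ + 1)
  refine ⟨max k₀ k₀', fun k hk => ?_⟩
  obtain ⟨u, v, hv1, hv2, huv⟩ := hk₀ k ((le_max_left _ _).trans hk)
  obtain ⟨u', v', hv1', hv2', huv'⟩ := hk₀' k ((le_max_right _ _).trans hk)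
  refine ⟨u * v' + u' * v, v * v', Nat.mul_pos hv1 hv1', ?_, ?_⟩
  · have e1 : v ≤ tow (h + h') (q k) := hv2.trans (tow_mono_left (by omega) _)
    have e2 : v' ≤ tow (h + h') (q k) := hv2'.trans (tow_mono_left (by omega) _)
    exact (Nat.mul_le_mul e1 e2).trans (tow_sq_lt _ _).le
  · have hv0 : (v : ℝ) ≠ 0 := by exact_mod_cast (by omega : v ≠ 0)
    have hv0' : (v' : ℝ) ≠ 0 := by exact_mod_cast (by omega : v' ≠ 0)
    have e1 : x + y - ((u * v' + u' * v : ℤ) : ℝ) / ((v * v' : ℕ) : ℝ) =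
        (x - u / v) + (y - u' / v') := by
      push_cast
      field_simp
      ring
    rw [e1]
    refine (abs_add_le _ _).trans ((add_le_add huv huv').trans ?_)
    have hq2 := hq k
    have h1 : 2 * tow κ (q k) ≤ tow (κ + 1) (q k) := by
      rw [tow_succ]
      exact two_mul_le_pow _
    have h2 : (0 : ℝ) < tow κ (q k) := by
      have := le_tow κ (q k)
      exact_mod_cast (by omega : 0 < tow κ (q k))
    have h3 : (2 : ℝ) * tow κ (q k) ≤ tow (κ + 1) (q k) := by exact_mod_cast h1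
    have h4 : ((tow (κ + 1) (q k) : ℕ) : ℝ)⁻¹ ≤ (2 * ((tow κ (q k) : ℕ) : ℝ))⁻¹ :=
      inv_anti₀ (by positivity) h3
    have h5 : (2 * ((tow κ (q k) : ℕ) : ℝ))⁻¹ + (2 * ((tow κ (q k) : ℕ) : ℝ))⁻¹ =
        ((tow κ (q k) : ℕ) : ℝ)⁻¹ := by
      field_simp
      norm_num
    linarith

theorem RAppr.mulRat (hq : ∀ k, 2 ≤ q k) {x : ℝ} (hx : RAppr q x) (r : ℚ) :
    RAppr q (x * r) := by
  obtain ⟨h, hh⟩ := hx
  refine ⟨h + r.den + 2, fun κ => ?_⟩
  obtain ⟨k₀, hk₀⟩ := hh (κ + r.num.natAbs + 2)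
  refine ⟨k₀, fun k hk => ?_⟩
  obtain ⟨u, v, hv1, hv2, huv⟩ := hk₀ k hk
  have hq2 := hq k
  refine ⟨u * r.num, v * r.den, Nat.mul_pos hv1 r.den_pos, ?_, ?_⟩
  · have e1 : v ≤ tow (h + r.den) (q k) := hv2.trans (tow_mono_left (by omega) _)
    have e2 : r.den ≤ tow (h + r.den) (q k) := by
      have := le_tow (h + r.den) (q k)
      omega
    exact (Nat.mul_le_mul e1 e2).trans (tow_sq_lt _ _).le
  · have hv0 : (v : ℝ) ≠ 0 := by exact_mod_cast (by omega : v ≠ 0)
    have hd0 : (r.den : ℝ) ≠ 0 := by exact_mod_cast r.den_nz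
    have h1 : (r : ℝ) = (r.num : ℝ) / r.den := by
      exact_mod_cast (Rat.num_div_den r).symm
    have e1 : x * r - ((u * r.num : ℤ) : ℝ) / ((v * r.den : ℕ) : ℝ) = (x - u / v) * r := by
      rw [h1]
      push_cast
      field_simp
    rw [e1, abs_mul]
    have h2 : |(r : ℝ)| ≤ r.num.natAbs := by
      rw [h1, abs_div, Nat.cast_natAbs, Int.cast_abs]
      refine div_le_self (abs_nonneg _) ?_
      rw [Nat.abs_cast]
      exact_mod_cast r.den_pos
    have hp : ∀ m, (0 : ℝ) < tow m (q k) := fun m => by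
      have := le_tow m (q k)
      exact_mod_cast (by omega : 0 < tow m (q k))
    have h3 : r.num.natAbs * tow κ (q k) ≤ tow (κ + r.num.natAbs + 2) (q k) := by
      have f1 : r.num.natAbs ≤ tow (κ + r.num.natAbs) (q k) := by
        have := le_tow (κ + r.num.natAbs) (q k)
        omega
      have f2 : tow κ (q k) ≤ tow (κ + r.num.natAbs) (q k) := tow_mono_left (by omega) _
      exact (Nat.mul_le_mul f1 f2).trans (tow_sq_lt _ _).le
    have h4 : (r.num.natAbs : ℝ) * tow κ (q k) ≤ tow (κ + r.num.natAbs + 2) (q k) := by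
      exact_mod_cast h3
    calc |x - u / v| * |(r : ℝ)|
        ≤ ((tow (κ + r.num.natAbs + 2) (q k) : ℕ) : ℝ)⁻¹ * r.num.natAbs :=
          mul_le_mul huv h2 (abs_nonneg _) (by positivity)
      _ ≤ ((tow κ (q k) : ℕ) : ℝ)⁻¹ := by
          rw [inv_mul_le_iff₀ (hp _), ← div_eq_mul_inv, le_div_iff₀ (hp _)]
          exact h4

theorem RAppr.sum (hq : ∀ k, 2 ≤ q k) {ι : Type*} (s : Finset ι) (f : ι → ℝ)
    (hf : ∀ i ∈ s, RAppr q (f i)) : RAppr q (∑ i ∈ s, f i) := by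
  classical
  induction s using Finset.induction_on with
  | empty =>
    rw [sum_empty]
    have := RAppr.ofRat hq 0
    simpa using this
  | insert a s ha ih =>
    rw [sum_insert ha]
    exact RAppr.add hq (hf a (mem_insert_self _ _)) (ih fun i hi => hf i (mem_insert_of_mem hi))

/-- combinations of logarithms of algebraic numbers with rationally approximable coefficients -/
def IsRL (q : ℕ → ℕ) (u : ℂ) : Prop :=
  ∃ (m : ℕ) (y : Fin m → ℝ) (l : Fin m → ℂ), (∀ j, RAppr q (y j)) ∧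
    (∀ j, IsAlgebraic ℚ (exp (l j))) ∧ u = ∑ j, (y j : ℂ) * l j

theorem exists_rep {ι : Type*} [Fintype ι] (hq : ∀ k, 2 ≤ q k) (u : ι → ℂ)
    (hu : ∀ i, IsRL q (u i)) :
    ∃ (J : Type) (_ : Fintype J) (l : J → ℂ) (y₀ : ι → ℝ) (y : ι → J → ℝ),
      (∀ j, IsAlgebraic ℚ (exp (l j))) ∧
      (∀ (r₀ : ℚ) (r : J → ℚ), 2 * Real.pi * I * r₀ + ∑ j, (r j : ℂ) * l j = 0 → ∀ j, r j = 0) ∧
      (∀ i, RAppr q (y₀ i)) ∧ (∀ i j, RAppr q (y i j)) ∧
      ∀ i, u i = 2 * Real.pi * I * y₀ i + ∑ j, (y i j : ℂ) * l j := by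
  classical
  choose m y l hy hl hu using hu
  set t : Set ℂ := insert (2 * Real.pi * I) (⋃ i, Set.range (l i)) with ht
  have htfin : t.Finite := (Set.finite_iUnion fun i => Set.finite_range _).insert _
  have hpi : (2 * Real.pi * I : ℂ) ≠ 0 := two_pi_I_ne_zero
  have hs : LinearIndepOn ℚ id ({2 * Real.pi * I} : Set ℂ) := LinearIndepOn.singleton hpi
  obtain ⟨b, hbt, hsb, htb, hb⟩ := exists_linearIndepOn_id_extension (t := t) hs
    (Set.singleton_subset_iff.2 (Set.mem_insert _ _))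
  set J : Set ℂ := b \ {2 * Real.pi * I} with hJ
  have hJfin : J.Finite := (htfin.subset hbt).subset Set.sdiff_subset
  haveI : Fintype J := hJfin.fintype
  have hbJ : b = insert (2 * Real.pi * I) J := by
    rw [hJ, Set.insert_sdiff_singleton, Set.insert_eq_of_mem (hsb rfl)]
  have hnot : (2 * Real.pi * I : ℂ) ∉ J := fun h => h.2 rfl
  rw [hbJ, linearIndepOn_id_insert hnot] at hb
  obtain ⟨hJind, hJspan⟩ := hb
  have hJl : ∀ j : J, IsAlgebraic ℚ (exp (j : ℂ)) := by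
    rintro ⟨j, hj⟩
    have h1 := hbt hj.1
    rcases h1 with h1 | h1
    · exact absurd h1 hj.2
    · obtain ⟨i, ⟨k, hk⟩⟩ := Set.mem_iUnion.1 h1
      change IsAlgebraic ℚ (exp j)
      rw [← hk]
      exact hl i k
  have hrange : Set.range (fun j : J => (j : ℂ)) = J := Subtype.range_val
  have hrep : ∀ i k, ∃ (r₀ : ℚ) (r : J → ℚ), l i k = r₀ * (2 * Real.pi * I) +
      ∑ j, (r j : ℂ) * (j : ℂ) := by
    intro i k
    have h1 : l i k ∈ Submodule.span ℚ b := htb (Or.inr (Set.mem_iUnion.2 ⟨i, ⟨k, rfl⟩⟩))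
    rw [hbJ, Submodule.mem_span_insert] at h1
    obtain ⟨a, z, hz, hlz⟩ := h1
    rw [← hrange, Submodule.mem_span_range_iff_exists_fun] at hz
    obtain ⟨r, hr⟩ := hz
    refine ⟨a, r, ?_⟩
    rw [hlz, ← hr, Rat.smul_def]
    simp only [Rat.smul_def]
  choose r₀ r hr using hrep
  refine ⟨J, inferInstance, fun j => (j : ℂ), fun i => ∑ k, y i k * r₀ i k,
    fun i j => ∑ k, y i k * r i k j, hJl, ?_, ?_, ?_, ?_⟩
  · intro r₀ r h
    have h0 : r₀ = 0 := by
      by_contra h0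
      apply hJspan
      have h1 : (2 * Real.pi * I : ℂ) = ∑ j : J, (-(r j) / r₀ : ℚ) • (j : ℂ) := by
        have h2 : (2 * Real.pi * I : ℂ) * r₀ = -∑ j : J, (r j : ℂ) * (j : ℂ) :=
          eq_neg_of_add_eq_zero_left h
        have h0' : (r₀ : ℂ) ≠ 0 := by exact_mod_cast h0
        rw [eq_div_of_mul_eq h0' h2, ← sum_neg_distrib, sum_div]
        refine sum_congr rfl fun j _ => ?_
        rw [Rat.smul_def]
        push_cast
        ring
      rw [h1]
      exact Submodule.sum_mem _ fun j _ => Submodule.smul_mem _ _ (Submodule.subset_span j.2)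
    rw [h0, Rat.cast_zero, mul_zero, zero_add] at h
    have h2 : LinearIndependent ℚ (fun j : J => (j : ℂ)) := hJind
    rw [Fintype.linearIndependent_iff] at h2
    refine h2 r ?_
    rw [← h]
    refine sum_congr rfl fun j _ => ?_
    rw [Rat.smul_def]
  · exact fun i => RAppr.sum hq _ _ fun k _ => RAppr.mulRat hq (hy i k) _
  · exact fun i j => RAppr.sum hq _ _ fun k _ => RAppr.mulRat hq (hy i k) _
  · intro i
    rw [hu i]
    have h1 : ∀ k, (y i k : ℂ) * l i k = 2 * Real.pi * I * ((y i k : ℂ) * r₀ i k) +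
        ∑ j : J, ((y i k : ℂ) * r i k j) * (j : ℂ) := by
      intro k
      rw [hr i k, mul_add, mul_sum]
      congr 1
      · ring
      · refine sum_congr rfl fun j _ => ?_
        ring
    simp_rw [h1]
    rw [sum_add_distrib, ← mul_sum, sum_comm]
    push_cast
    congr 1
    refine sum_congr rfl fun j _ => ?_
    rw [sum_mul]

end Pool.Agent.K3h47.Rad
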