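import Pool.Agent.K3h47.Rad.Alg

/-!
# Schanuel's inequality with a defect
-/

set_option autoImplicit false

namespace Pool.Agent.K3h47.Rad

open Pool.Agent.R347.LW Finset Complex

variable {q : ℕ → ℕ}

/-- the field generated by `z` and `exp z` -/
noncomputable def fld {n : ℕ} (z : Fin n → ℂ) : IntermediateField ℚ ℂ :=
  IntermediateField.adjoin ℚ (Set.range z ∪ Set.range fun i => exp (z i))

theorem exists_quot {n : ℕ} (z : Fin n → ℂ) (hz : LinearIndependent ℚ z) :
    ∃ (κ : Type) (_ : Fintype κ) (a : κ → Fin n), Function.Injective a ∧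
      LinearIndependent ℚ (fun k => Logs.mkQ (z (a k))) ∧
      Fintype.card κ +
        Module.finrank ℚ ↥(Submodule.span ℚ (Set.range z) ⊓ Logs) = n := by
  classical
  obtain ⟨κ, a, ha, hspan, hli⟩ := exists_linearIndependent' ℚ (fun i => Logs.mkQ (z i))
  haveI : Finite κ := Finite.of_injective a ha
  haveI : Fintype κ := Fintype.ofFinite κ
  refine ⟨κ, inferInstance, a, ha, hli, ?_⟩
  set Z := Submodule.span ℚ (Set.range z) with hZ
  haveI : FiniteDimensional ℚ Z := FiniteDimensional.span_of_finite ℚ (Set.finite_range z)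
  have h1 : Module.finrank ℚ Z = n := by
    rw [hZ, finrank_span_eq_card hz, Fintype.card_fin]
  have h2 : Fintype.card κ = Module.finrank ℚ (Submodule.map Logs.mkQ Z) := by
    rw [← finrank_span_eq_card hli]
    have h3 : Submodule.span ℚ (Set.range ((fun i => Logs.mkQ (z i)) ∘ a)) =
        Submodule.map Logs.mkQ Z := by
      rw [hspan, hZ, Submodule.map_span, ← Set.range_comp]
      rfl
    rw [h3]
  set f : Z →ₗ[ℚ] (ℂ ⧸ Logs) := Logs.mkQ ∘ₗ Z.subtype with hf
  have h4 := f.finrank_range_add_finrank_ker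
  have h5 : LinearMap.range f = Submodule.map Logs.mkQ Z := by
    rw [hf, LinearMap.range_comp, Submodule.range_subtype]
  have h6 : LinearMap.ker f = Submodule.comap Z.subtype (Z ⊓ Logs) := by
    ext x
    simp [hf, Submodule.Quotient.mk_eq_zero]
  rw [h5, h6, h1] at h4
  have h7 : Module.finrank ℚ ↥(Submodule.comap Z.subtype (Z ⊓ Logs)) =
      Module.finrank ℚ ↥(Z ⊓ Logs) :=
    (Submodule.comapSubtypeEquivOfLe inf_le_left).finrank_eq
  rw [h7] at h4
  rw [h2]
  exact h4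

theorem trdeg_ge {κ : Type} (M : IntermediateField ℚ ℂ) (x : κ → ℂ)
    (hx : AlgebraicIndependent ℚ x) (hxM : ∀ k, x k ∈ M) :
    Cardinal.mk κ ≤ Algebra.trdeg ℚ M := by
  have h1 : AlgebraicIndependent ℚ (fun k => (⟨x k, hxM k⟩ : M)) :=
    AlgebraicIndependent.of_comp M.val hx
  exact h1.cardinalMk_le_trdeg

/-- the transcendence basis of the part with coefficients -/
theorem base (M : IntermediateField ℚ ℂ) :
    ∃ (s : Type) (x : s → ℂ), AlgebraicIndependent ℚ x ∧ (∀ k, x k ∈ M) ∧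
      Cardinal.mk s = Algebra.trdeg ℚ M := by
  obtain ⟨s, hs⟩ := exists_isTranscendenceBasis ℚ M
  refine ⟨s, fun k => ((k : M) : ℂ), ?_, fun k => (k : M).2, hs.cardinalMk_eq_trdeg⟩
  exact hs.1.map' (f := M.val) M.val.injective

theorem defect (hq : ∀ k, 2 ≤ q k) {n : ℕ} (z : Fin n → ℂ) (hz : ∀ i, IsV q (z i))
    (hlin : LinearIndependent ℚ z) :
    (n : Cardinal) + Algebra.trdeg ℚ ↥(fld z ⊓ E q) ≤ Algebra.trdeg ℚ (fld z) +
      (Module.finrank ℚ ↥(Submodule.span ℚ (Set.range z) ⊓ Logs) : ℕ) := by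
  obtain ⟨κ, hκ, a, ha, hli, hcard⟩ := exists_quot z hlin
  obtain ⟨s, x, hx, hxM, hs⟩ := base (fld z ⊓ E q)
  have e := Fintype.equivFin κ
  have h1 : AlgebraicIndependent (E q) (fun i : Fin (Fintype.card κ) => exp (z (a (e.symm i)))) :=
    (algV hq (fun i => z (a (e.symm i))) (fun i => hz _)).2 (hli.comp _ e.symm.injective)
  have h2 : AlgebraicIndependent (E q) (fun k => exp (z (a k))) := by
    have := h1.comp e e.injective
    simpa [Function.comp_def] using this
  have h3 : AlgebraicIndependent ℚ (Sum.elim (fun k => exp (z (a k))) x) := by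
    refine hx.sumElim_of_tower (S := E q) ?_ h2
    rintro _ ⟨k, rfl⟩
    exact ⟨⟨x k, (hxM k).2⟩, rfl⟩
  have h4 := trdeg_ge (fld z) _ h3 (by
    rintro (k | k)
    · exact IntermediateField.subset_adjoin _ _ (Or.inr ⟨a k, rfl⟩)
    · exact (hxM k).1)
  rw [Cardinal.mk_sum, Cardinal.lift_id, Cardinal.lift_id, Cardinal.mk_fintype, hs] at h4
  have h5 : (n : Cardinal) = (Fintype.card κ : Cardinal) +
      (Module.finrank ℚ ↥(Submodule.span ℚ (Set.range z) ⊓ Logs) : ℕ) := by
    exact_mod_cast hcard.symm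
  rw [h5, add_right_comm]
  gcongr

theorem defect_rl (hq : ∀ k, 2 ≤ q k) {n : ℕ} (hn : n ≠ 0) (z : Fin n → ℂ)
    (hz : ∀ i, IsRL q (z i)) (hlin : LinearIndependent ℚ z) :
    (n : Cardinal) + Algebra.trdeg ℚ ↥(fld z ⊓ E q) + 1 ≤ Algebra.trdeg ℚ (fld z) +
      (Module.finrank ℚ ↥(Submodule.span ℚ (Set.range z) ⊓ Logs) : ℕ) := by
  obtain ⟨κ, hκ, a, ha, hli, hcard⟩ := exists_quot z hlin
  obtain ⟨s, x, hx, hxM, hs⟩ := base (fld z ⊓ E q)
  have e := Fintype.equivFin κ
  have hzV : ∀ i, IsV q (z i) := fun i => ⟨0, z i, Appr.zero hq, hz i, (zero_add _).symm⟩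
  have h1 : AlgebraicIndependent (E q) (fun i : Fin (Fintype.card κ) => exp (z (a (e.symm i)))) :=
    (algV hq (fun i => z (a (e.symm i))) (fun i => hzV _)).2 (hli.comp _ e.symm.injective)
  have h2 : AlgebraicIndependent (E q) (fun k => exp (z (a k))) := by
    have := h1.comp e e.injective
    simpa [Function.comp_def] using this
  have h3 : AlgebraicIndependent ℚ (Sum.elim (fun k => exp (z (a k))) x) := by
    refine hx.sumElim_of_tower (S := E q) ?_ h2
    rintro _ ⟨k, rfl⟩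
    exact ⟨⟨x k, (hxM k).2⟩, rfl⟩
  -- the first element is transcendental over `UK`
  set i₀ : Fin n := ⟨0, Nat.pos_of_ne_zero hn⟩ with hi₀
  have hu0 : z i₀ ≠ 0 := hlin.ne_zero i₀
  have htr : Transcendental (UK hq) (z i₀) := by
    intro halg
    haveI := UK_closed hq
    have h5 : z i₀ ∈ UK hq := by
      have h6 : z i₀ ∈ algebraicClosure (UK hq) ℂ := mem_algebraicClosure_iff.2 halg
      rw [IntermediateField.eq_bot_of_isAlgClosed_of_isAlgebraic (algebraicClosure (UK hq) ℂ)]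
        at h6
      obtain ⟨y, hy⟩ := h6
      rw [← hy]
      exact y.2
    exact hu0 (appr_rl hq h5 (hz i₀))
  have h4 : AlgebraicIndependent (UK hq) (fun _ : Unit => z i₀) :=
    algebraicIndependent_unique_type_iff.2 htr
  have h5 : AlgebraicIndependent ℚ (Sum.elim (fun _ : Unit => z i₀)
      (Sum.elim (fun k => exp (z (a k))) x)) := by
    refine h3.sumElim_of_tower (S := UK hq) ?_ h4
    rintro _ ⟨k | k, rfl⟩
    · exact ⟨⟨exp (z (a k)), exp_rl hq (hz _)⟩, rfl⟩
    · exact ⟨⟨x k, E_le hq (hxM k).2⟩, rfl⟩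
  have h6 := trdeg_ge (fld z) _ h5 (by
    rintro (k | k | k)
    · exact IntermediateField.subset_adjoin _ _ (Or.inl ⟨i₀, rfl⟩)
    · exact IntermediateField.subset_adjoin _ _ (Or.inr ⟨a k, rfl⟩)
    · exact (hxM k).1)
  rw [Cardinal.mk_sum, Cardinal.lift_id, Cardinal.lift_id, Cardinal.mk_sum, Cardinal.lift_id,
    Cardinal.lift_id, Cardinal.mk_fintype κ, Cardinal.mk_fintype, Fintype.card_unit,
    Nat.cast_one, hs] at h6
  have h7 : (n : Cardinal) = (Fintype.card κ : Cardinal) +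
      (Module.finrank ℚ ↥(Submodule.span ℚ (Set.range z) ⊓ Logs) : ℕ) := by
    exact_mod_cast hcard.symm
  rw [h7]
  calc (Fintype.card κ : Cardinal) +
      (Module.finrank ℚ ↥(Submodule.span ℚ (Set.range z) ⊓ Logs) : ℕ) +
        Algebra.trdeg ℚ ↥(fld z ⊓ E q) + 1
      = (1 + ((Fintype.card κ : Cardinal) + Algebra.trdeg ℚ ↥(fld z ⊓ E q))) +
        (Module.finrank ℚ ↥(Submodule.span ℚ (Set.range z) ⊓ Logs) : ℕ) := by ring
    _ ≤ _ := by gcongr

end Pool.Agent.K3h47.Rad
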