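import Pool.Agent.K3h47.Rad.Lin

/-!
# The space of the sums of approximable numbers and combinations of logarithms
-/

set_option autoImplicit false

namespace Pool.Agent.K3h47.Rad

open Pool.Agent.R347.LW Finset Complex
open scoped IntermediateField.algebraAdjoinAdjoin

/-- the logarithms of algebraic numbers -/
def Logs : Submodule ℚ ℂ where
  carrier := {l | IsAlgebraic ℚ (exp l)}
  add_mem' := fun {a b} ha hb => by
    change IsAlgebraic ℚ (exp (a + b))
    rw [exp_add]
    exact ha.mul hb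
  zero_mem' := by
    change IsAlgebraic ℚ (exp 0)
    rw [exp_zero]
    exact isAlgebraic_one
  smul_mem' := fun c l hl => by
    have h1 := exp_alg (J := Unit) (fun _ => l) (fun _ => hl) 0 (fun _ => c)
    rw [rad] at h1
    change IsAlgebraic ℚ (exp (c • l))
    rw [Rat.smul_def]
    simpa using h1

theorem mem_Logs {l : ℂ} : l ∈ Logs ↔ IsAlgebraic ℚ (exp l) := Iff.rfl

variable {q : ℕ → ℕ}

theorem isRL_of {J : Type*} [Fintype J] (y : J → ℝ) (l : J → ℂ) (hy : ∀ j, RAppr q (y j))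
    (hl : ∀ j, IsAlgebraic ℚ (exp (l j))) : IsRL q (∑ j, (y j : ℂ) * l j) := by
  have e := Fintype.equivFin J
  refine ⟨Fintype.card J, fun k => y (e.symm k), fun k => l (e.symm k), fun k => hy _,
    fun k => hl _, ?_⟩
  exact (Equiv.sum_comp e.symm (fun j => (y j : ℂ) * l j)).symm

theorem IsRL.zero : IsRL q 0 := by
  have h := isRL_of (q := q) (J := Fin 0) (fun j => j.elim0) (fun j => j.elim0)
    (fun j => j.elim0) (fun j => j.elim0)
  simpa using h

theorem IsRL.add {u v : ℂ} (hu : IsRL q u) (hv : IsRL q v) : IsRL q (u + v) := by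
  obtain ⟨m, y, l, hy, hl, rfl⟩ := hu
  obtain ⟨m', y', l', hy', hl', rfl⟩ := hv
  have h := isRL_of (q := q) (J := Fin m ⊕ Fin m') (Sum.elim y y') (Sum.elim l l')
    (by rintro (j | j); exacts [hy j, hy' j]) (by rintro (j | j); exacts [hl j, hl' j])
  rw [Fintype.sum_sum_type] at h
  simpa using h

theorem IsRL.ratMul (hq : ∀ k, 2 ≤ q k) {u : ℂ} (hu : IsRL q u) (r : ℚ) : IsRL q (r * u) := by
  obtain ⟨m, y, l, hy, hl, rfl⟩ := hu
  refine ⟨m, fun j => y j * r, l, fun j => RAppr.mulRat hq (hy j) r, hl, ?_⟩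
  rw [mul_sum]
  refine sum_congr rfl fun j _ => ?_
  push_cast
  ring

theorem IsRL.sum {ι : Type*} (s : Finset ι) (f : ι → ℂ) (hf : ∀ i ∈ s, IsRL q (f i)) :
    IsRL q (∑ i ∈ s, f i) := by
  classical
  induction s using Finset.induction_on with
  | empty =>
    rw [sum_empty]
    exact IsRL.zero
  | insert a s ha ih =>
    rw [sum_insert ha]
    exact IsRL.add (hf a (mem_insert_self _ _)) (ih fun i hi => hf i (mem_insert_of_mem hi))

theorem IsRL.ofLog (hq : ∀ k, 2 ≤ q k) {l : ℂ} (hl : l ∈ Logs) : IsRL q l := by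
  refine ⟨1, fun _ => 1, fun _ => l, fun _ => ?_, fun _ => hl, ?_⟩
  · have := RAppr.ofRat hq 1
    simpa using this
  · simp

/-- approximable numbers are not combinations of logarithms -/
theorem appr_rl (hq : ∀ k, 2 ≤ q k) {x : ℂ} (hx : Appr q x) (hx' : IsRL q x) : x = 0 := by
  by_contra h0
  have h1 : exp x ∈ UK hq := exp_rl hq hx'
  have h2 := lwU hq 2 ![0, x] ![-exp x, 1] ?_ ?_ ?_ ?_ 1
  · simp at h2
  · intro i
    fin_cases i
    exacts [Appr.zero hq, hx]
  · intro i
    fin_cases i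
    exacts [neg_mem h1, Appr.one hq]
  · intro i j hij
    fin_cases i <;> fin_cases j
    · rfl
    · exact absurd hij.symm h0
    · exact absurd hij h0
    · rfl
  · simp

theorem exists_basis {κ : Type*} [Fintype κ] (v : κ → ℂ) (hv : ∀ k, v k ∈ Logs) :
    ∃ (J : Type) (_ : Fintype J) (l : J → ℂ) (r₀ : κ → ℚ) (r : κ → J → ℚ),
      (∀ j, IsAlgebraic ℚ (exp (l j))) ∧
      (∀ (r₀ : ℚ) (r : J → ℚ), 2 * Real.pi * I * r₀ + ∑ j, (r j : ℂ) * l j = 0 → ∀ j, r j = 0) ∧
      ∀ k, v k = 2 * Real.pi * I * r₀ k + ∑ j, (r k j : ℂ) * l j := by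
  classical
  set t : Set ℂ := insert (2 * Real.pi * I) (Set.range v) with ht
  have htfin : t.Finite := (Set.finite_range _).insert _
  have hpi : (2 * Real.pi * I : ℂ) ≠ 0 := two_pi_I_ne_zero
  have hs : LinearIndepOn ℚ id ({2 * Real.pi * I} : Set ℂ) := LinearIndepOn.singleton hpi
  obtain ⟨b, hbt, hsb, htb, hb⟩ := exists_linearIndepOn_id_extension (t := t) hs
    (Set.singleton_subset_iff.2 (Set.mem_insert _ _))
  set J : Set ℂ := b \ {2 * Real.pi * I} with hJ
  have hJfin : J.Finite := (htfin.subset hbt).subset Set.sdiff_subset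
  haveI : Fintype J := hJfin.fintype
  have hbJ : b = insert (2 * Real.pi * I) J := by
    rw [hJ, Set.insert_sdiff_singleton, Set.insert_eq_of_mem (hsb rfl)]
  have hnot : (2 * Real.pi * I : ℂ) ∉ J := fun h => h.2 rfl
  rw [hbJ, linearIndepOn_id_insert hnot] at hb
  obtain ⟨hJind, hJspan⟩ := hb
  have hJl : ∀ j : J, IsAlgebraic ℚ (exp (j : ℂ)) := by
    rintro ⟨j, hj⟩
    have h1 := hbt hj.1
    rcases h1 with h1 | ⟨k, hk⟩
    · exact absurd h1 hj.2
    · change IsAlgebraic ℚ (exp j)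
      rw [← hk]
      exact hv k
  have hrange : Set.range (fun j : J => (j : ℂ)) = J := Subtype.range_val
  have hrep : ∀ k, ∃ (r₀ : ℚ) (r : J → ℚ), v k = 2 * Real.pi * I * r₀ +
      ∑ j, (r j : ℂ) * (j : ℂ) := by
    intro k
    have h1 : v k ∈ Submodule.span ℚ b := htb (Or.inr ⟨k, rfl⟩)
    rw [hbJ, Submodule.mem_span_insert] at h1
    obtain ⟨a, z, hz, hlz⟩ := h1
    rw [← hrange, Submodule.mem_span_range_iff_exists_fun] at hz
    obtain ⟨r, hr⟩ := hz
    refine ⟨a, r, ?_⟩
    rw [hlz, ← hr, Rat.smul_def, mul_comm (2 * Real.pi * I : ℂ)]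
    simp only [Rat.smul_def]
  choose r₀ r hr using hrep
  refine ⟨J, inferInstance, fun j => (j : ℂ), r₀, r, hJl, ?_, hr⟩
  intro r₀ r h
  have h0 : r₀ = 0 := by
    by_contra h0
    apply hJspan
    have h1 : (2 * Real.pi * I : ℂ) = ∑ j : J, (-(r j) / r₀ : ℚ) • (j : ℂ) := by
      have h2 : (2 * Real.pi * I : ℂ) * r₀ = -∑ j : J, (r j : ℂ) * (j : ℂ) :=
        eq_neg_of_add_eq_zero_left h
      have h0' : (r₀ : ℂ) ≠ 0 := by exact_mod_cast h0
      rw [eq_div_of_mul_eq h0' h2, ← sum_neg_distrib, sum_div]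
      refine sum_congr rfl fun j _ => ?_
      rw [Rat.smul_def]
      push_cast
      ring
    rw [h1]
    exact Submodule.sum_mem _ fun j _ => Submodule.smul_mem _ _ (Submodule.subset_span j.2)
  rw [h0, Rat.cast_zero, mul_zero, zero_add] at h
  have h2 : LinearIndependent ℚ (fun j : J => (j : ℂ)) := hJind
  rw [Fintype.linearIndependent_iff] at h2
  refine h2 r ?_
  rw [← h]
  refine sum_congr rfl fun j _ => ?_
  rw [Rat.smul_def]

/-- a combination of linearly independent logarithms is a logarithm only if its coefficients are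
rational -/
theorem struct0 (hq : ∀ k, 2 ≤ q k) {κ : Type} [Fintype κ] (v : κ → ℂ) (hv : ∀ k, v k ∈ Logs)
    (hlin : LinearIndependent ℚ v) (y : κ → ℝ) (hy : ∀ k, RAppr q (y k))
    (h : ∑ k, (y k : ℂ) * v k ∈ Logs) (k : κ) : ∃ r : ℚ, y k = r := by
  classical
  obtain ⟨J, hJ, l, r₀, r, hl, hind, hr⟩ := exists_basis v hv
  set a : ℂ := exp (∑ k, (y k : ℂ) * v k) with ha
  have haalg : IsAlgebraic ℚ a := h
  have hsum : ∑ k, (y k : ℂ) * v k = 2 * Real.pi * I * ((∑ k, y k * r₀ k : ℝ) : ℂ) +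
      ∑ j, ((∑ k, y k * r k j : ℝ) : ℂ) * l j := by
    have h1 : ∀ k, (y k : ℂ) * v k = 2 * Real.pi * I * ((y k : ℂ) * r₀ k) +
        ∑ j : J, ((y k : ℂ) * r k j) * l j := by
      intro k
      rw [hr k, mul_add, mul_sum]
      congr 1
      · ring
      · refine sum_congr rfl fun j _ => ?_
        ring
    simp_rw [h1]
    rw [sum_add_distrib, ← mul_sum, sum_comm]
    push_cast
    congr 1
    refine sum_congr rfl fun j _ => ?_
    rw [sum_mul]
  -- all coefficients are rational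
  have hrat : ∃ (s₀ : ℚ) (s : J → ℚ), ∑ k, y k * r₀ k = s₀ ∧ ∀ j, ∑ k, y k * r k j = s j := by
    by_contra hcon
    have h1 := lemA (ι := Bool) (P := Unit) (τ := PEmpty.{1}) q hq l hl hind (fun _ => a)
      (fun _ => haalg) (fun t => t.elim) (fun t => t.elim)
      (fun b => if b then ∑ k, y k * r₀ k else 0)
      (fun b => by
        cases b
        · simpa using RAppr.ofRat hq 0
        · exact RAppr.sum hq _ _ fun k _ => RAppr.mulRat hq (hy k) _)
      (fun b j => if b then ∑ k, y k * r k j else 0)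
      (fun b j => by
        cases b
        · simpa using RAppr.ofRat hq 0
        · exact RAppr.sum hq _ _ fun k _ => RAppr.mulRat hq (hy k) _)
      (fun b => if b then 1 else -MvPolynomial.X (Sum.inl ())) true ?_ ?_
    · simp at h1
    · intro b hb
      cases b
      · rintro ⟨s₀, s, hs₀, hs⟩
        apply hcon
        refine ⟨-s₀, fun j => -s j, ?_, fun j => ?_⟩
        · simp only [if_true, Bool.false_eq_true, if_false] at hs₀
          push_cast
          linarith
        · have := hs j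
          simp only [if_true, Bool.false_eq_true, if_false] at this
          push_cast
          linarith
      · exact absurd rfl hb
    · rw [Fintype.sum_bool]
      simp only [if_true, Bool.false_eq_true, if_false]
      rw [← hsum, ← ha]
      simp
  obtain ⟨s₀, s, hs₀, hs⟩ := hrat
  -- separate by linear functionals
  set W : Submodule ℚ ℝ := Submodule.span ℚ {1} with hW
  have hWr : ∀ s : ℚ, (s : ℝ) ∈ W := by
    intro s
    have h1 : (s : ℝ) = s • (1 : ℝ) := by rw [Rat.smul_def, mul_one]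
    rw [h1]
    exact Submodule.smul_mem _ _ (Submodule.mem_span_singleton_self _)
  have hy0 : W.mkQ (y k) = 0 := by
    rw [← Module.forall_dual_apply_eq_zero_iff ℚ]
    intro φ
    set ψ : ℝ →ₗ[ℚ] ℚ := φ ∘ₗ W.mkQ with hψ
    have hψr : ∀ s : ℚ, ψ (s : ℝ) = 0 := by
      intro s
      rw [hψ, LinearMap.comp_apply, Submodule.mkQ_apply, (Submodule.Quotient.mk_eq_zero W).2 (hWr s),
        map_zero]
    have hψm : ∀ (x : ℝ) (s : ℚ), ψ (x * s) = ψ x * s := by
      intro x s
      have h1 : x * (s : ℝ) = s • x := by rw [Rat.smul_def, mul_comm]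
      rw [h1, map_smul, smul_eq_mul, mul_comm]
    have e0 : ∑ k, ψ (y k) * r₀ k = 0 := by
      have := hψr s₀
      rw [← hs₀, map_sum] at this
      simpa only [hψm] using this
    have e1 : ∀ j, ∑ k, ψ (y k) * r k j = 0 := by
      intro j
      have := hψr (s j)
      rw [← hs j, map_sum] at this
      simpa only [hψm] using this
    rw [Fintype.linearIndependent_iff] at hlin
    refine hlin (fun k => ψ (y k)) ?_ k
    have e2 : ∀ k, ψ (y k) • v k = 2 * Real.pi * I * ((ψ (y k) * r₀ k : ℚ) : ℂ) +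
        ∑ j : J, ((ψ (y k) * r k j : ℚ) : ℂ) * l j := by
      intro k
      rw [Rat.smul_def, hr k, mul_add, mul_sum]
      congr 1
      · push_cast
        ring
      · refine sum_congr rfl fun j _ => ?_
        push_cast
        ring
    simp_rw [e2]
    rw [sum_add_distrib, ← mul_sum, sum_comm]
    have e3 : ∀ j, ∑ k, ((ψ (y k) * r k j : ℚ) : ℂ) * l j = 0 := by
      intro j
      rw [← sum_mul, ← Rat.cast_sum, e1 j, Rat.cast_zero, zero_mul]
    rw [← Rat.cast_sum, e0, Rat.cast_zero, mul_zero, zero_add]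
    exact sum_eq_zero fun j _ => e3 j
  have h1 : y k ∈ W := (Submodule.Quotient.mk_eq_zero W).1 hy0
  rw [hW, Submodule.mem_span_singleton] at h1
  obtain ⟨r, hr⟩ := h1
  refine ⟨r, ?_⟩
  rw [← hr, Rat.smul_def, mul_one]

theorem structA (hq : ∀ k, 2 ≤ q k) {κ : Type} [Fintype κ] (v : κ → ℂ) (hv : ∀ k, v k ∈ Logs)
    (hlin : LinearIndependent ℚ v) (x : ℂ) (hx : Appr q x) (y : κ → ℝ)
    (hy : ∀ k, RAppr q (y k)) :
    x + ∑ k, (y k : ℂ) * v k ∈ Logs ↔ x = 0 ∧ ∀ k, ∃ r : ℚ, y k = r := by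
  constructor
  · intro h
    have h1 : IsRL q x := by
      have h2 : x = (x + ∑ k, (y k : ℂ) * v k) + (((-1 : ℚ)) : ℂ) * ∑ k, (y k : ℂ) * v k := by
        push_cast
        ring
      rw [h2]
      exact IsRL.add (IsRL.ofLog hq h) (IsRL.ratMul hq (isRL_of y v hy hv) _)
    have h0 : x = 0 := appr_rl hq hx h1
    rw [h0, zero_add] at h
    exact ⟨h0, struct0 hq v hv hlin y hy h⟩
  · rintro ⟨rfl, h⟩
    rw [zero_add]
    refine Submodule.sum_mem _ fun k _ => ?_
    obtain ⟨r, hr⟩ := h k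
    have h1 : (y k : ℂ) * v k = r • v k := by
      rw [hr, Rat.smul_def]
      push_cast
      rfl
    rw [h1]
    exact Submodule.smul_mem _ _ (hv k)

end Pool.Agent.K3h47.Rad
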