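import Mathlib

/-!
# Normalized traces of radicals
-/

set_option autoImplicit false

namespace Pool.Agent.K3h47.Rad

variable {F Ω : Type*} [Field F] [Field Ω] [Algebra F Ω] [CharZero F] [Algebra.IsAlgebraic F Ω]

theorem trace_zero (w : Ω) (n : ℕ) (σ : Ω ≃ₐ[F] Ω)
    (hσ : ∀ ζ : Ω, ζ ^ n = 1 → σ ζ = ζ) (a : F) (hw : w ^ n = algebraMap F Ω a)
    (hne : σ w ≠ w) : Algebra.normalizedTrace F Ω w = 0 := by
  have hw0 : w ≠ 0 := by
    rintro rfl
    exact hne (map_zero σ)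
  set K : IntermediateField F Ω := IntermediateField.fixedField (Subgroup.zpowers σ) with hK
  have hKσ : ∀ x : Ω, x ∈ K ↔ σ x = x := by
    intro x
    rw [hK, IntermediateField.mem_fixedField_iff]
    constructor
    · intro h
      exact h σ (Subgroup.mem_zpowers σ)
    · intro h f hf
      have h1 : Subgroup.zpowers σ ≤ MulAction.stabilizer (Ω ≃ₐ[F] Ω) x := by
        rw [Subgroup.zpowers_le, MulAction.mem_stabilizer_iff]
        exact h
      exact MulAction.mem_stabilizer_iff.1 (h1 hf)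
  have hζ1 : (σ w / w) ^ n = 1 := by
    rw [div_pow, ← map_pow, hw, AlgEquiv.commutes, ← hw]
    exact div_self (pow_ne_zero _ hw0)
  have hζK : σ w / w ∈ K := by
    rw [hKσ]
    exact hσ _ hζ1
  set ζ : K := ⟨σ w / w, hζK⟩ with hζ
  have hζne : ζ ≠ 1 := by
    intro h
    have h1 : σ w / w = 1 := congrArg Subtype.val h
    rw [div_eq_one_iff_eq hw0] at h1
    exact hne h1
  haveI : Algebra.IsAlgebraic K Ω := Algebra.IsAlgebraic.tower_top (K := F) K
  let σ' : Ω →ₐ[K] Ω :=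
    { (σ : Ω →+* Ω) with
      commutes' := fun x => (hKσ _).1 x.2 }
  have h1 : Algebra.normalizedTrace K Ω (σ' w) = Algebra.normalizedTrace K Ω w :=
    Algebra.normalizedTrace_map K Ω σ' w
  have h2 : σ' w = ζ • w := by
    change σ w = (σ w / w) * w
    rw [div_mul_cancel₀ _ hw0]
  rw [h2, map_smul, smul_eq_mul] at h1
  have h3 : Algebra.normalizedTrace K Ω w = 0 := by
    have h4 : (ζ - 1) * Algebra.normalizedTrace K Ω w = 0 := by
      rw [sub_mul, h1, one_mul, sub_self]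
    rcases mul_eq_zero.1 h4 with h5 | h5
    · exact absurd (sub_eq_zero.1 h5) hζne
    · exact h5
  rw [← Algebra.normalizedTrace_trans_apply F K Ω, h3, map_zero]

theorem root_comm (n : ℕ) (hn : n ≠ 0) (σ τ : Ω ≃ₐ[F] Ω) (ζ : Ω) (hζ : ζ ^ n = 1) :
    σ (τ ζ) = τ (σ ζ) := by
  haveI : NeZero n := ⟨hn⟩
  obtain ⟨a, ha⟩ := map_rootsOfUnity_eq_pow_self σ (rootsOfUnity.mkOfPowEq ζ hζ)
  obtain ⟨b, hb⟩ := map_rootsOfUnity_eq_pow_self τ (rootsOfUnity.mkOfPowEq ζ hζ)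
  have ha' : σ ζ = ζ ^ a := by simpa using ha
  have hb' : τ ζ = ζ ^ b := by simpa using hb
  rw [hb', ha', map_pow, map_pow, ha', hb', ← pow_mul, ← pow_mul, mul_comm]

theorem comm_of_trace (w : Ω) (n : ℕ) (hn : n ≠ 0) (a : F)
    (hw : w ^ n = algebraMap F Ω a) (hT : Algebra.normalizedTrace F Ω w ≠ 0)
    (σ τ : Ω ≃ₐ[F] Ω) : σ (τ w) = τ (σ w) := by
  by_contra hne
  apply hT
  refine trace_zero w n ((τ * σ)⁻¹ * (σ * τ)) ?_ a hw ?_
  · intro ζ hζ
    have h1 := root_comm n hn σ τ ζ hζ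
    have h2 : ((τ * σ)⁻¹ * (σ * τ)) ζ = (τ * σ)⁻¹ ((τ * σ) ζ) := by
      change (τ * σ)⁻¹ (σ (τ ζ)) = (τ * σ)⁻¹ (τ (σ ζ))
      rw [h1]
    rw [h2, ← AlgEquiv.mul_apply, inv_mul_cancel, AlgEquiv.one_apply]
  · intro h
    apply hne
    have h2 := congrArg (τ * σ) h
    rw [← AlgEquiv.mul_apply, mul_inv_cancel_left] at h2
    exact h2

/-- a radical with a nonzero trace has a power, with exponent `W`, which is a root of unity times an
element of `F` -/
theorem schinzel [IsAlgClosed Ω] (W : ℕ) (hW : ∀ x : F, ∀ m : ℕ, m ≠ 0 → x ^ m = 1 → x ^ W = 1)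
    (w : Ω) (hw0 : w ≠ 0) (n : ℕ) (hn : n ≠ 0) (a : F)
    (hw : w ^ n = algebraMap F Ω a) (hT : Algebra.normalizedTrace F Ω w ≠ 0) :
    ∃ (ζ : Ω) (m : ℕ) (f : F), m ≠ 0 ∧ ζ ^ m = 1 ∧ f ≠ 0 ∧ w ^ W = ζ * algebraMap F Ω f := by
  haveI : NeZero n := ⟨hn⟩
  haveI : CharZero Ω := charZero_of_injective_algebraMap (algebraMap F Ω).injective
  haveI : IsAlgClosure F Ω := ⟨inferInstance, inferInstance⟩
  haveI : Algebra.IsSeparable F Ω := inferInstance
  haveI : Normal F Ω := IsAlgClosure.normal F Ω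
  haveI : IsGalois F Ω := { }
  have hcomm := comm_of_trace w n hn a hw hT
  obtain ⟨ζ, hζ⟩ := HasEnoughRootsOfUnity.exists_primitiveRoot Ω n
  -- the group
  set u : Ωˣ := Units.mk0 w hw0 with hu
  set H : Subgroup Ωˣ := CommGroup.torsion Ωˣ ⊔ (Units.map (algebraMap F Ω : F →* Ω)).range with hH
  have hHmem : ∀ x : Ωˣ, x ∈ H → ∃ (ζ : Ω) (m : ℕ) (f : F), m ≠ 0 ∧ ζ ^ m = 1 ∧ f ≠ 0 ∧
      (x : Ω) = ζ * algebraMap F Ω f := by
    intro x hx
    rw [hH, Subgroup.mem_sup] at hx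
    obtain ⟨y, hy, z, hz, rfl⟩ := hx
    obtain ⟨f, rfl⟩ := hz
    have hy' : IsOfFinOrder y := hy
    obtain ⟨m, hm, hym⟩ := isOfFinOrder_iff_pow_eq_one.1 hy'
    refine ⟨y, m, f, hm.ne', ?_, f.ne_zero, rfl⟩
    have := congrArg Units.val hym
    simpa using this
  have hmemH : ∀ (x : Ωˣ) (ζ : Ω) (m : ℕ) (f : F), m ≠ 0 → ζ ^ m = 1 → f ≠ 0 →
      (x : Ω) = ζ * algebraMap F Ω f → x ∈ H := by
    intro x ζ m f hm hζm hf hx
    have hζ0 : ζ ≠ 0 := by
      rintro rfl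
      rw [zero_pow hm] at hζm
      exact zero_ne_one hζm
    rw [hH, Subgroup.mem_sup]
    refine ⟨Units.mk0 ζ hζ0, ?_, Units.map (algebraMap F Ω : F →* Ω) (Units.mk0 f hf), ⟨_, rfl⟩, ?_⟩
    · change IsOfFinOrder _
      rw [isOfFinOrder_iff_pow_eq_one]
      refine ⟨m, Nat.pos_of_ne_zero hm, ?_⟩
      ext
      simpa using hζm
    · ext
      rw [hx]
      rfl
  set d : ℕ := orderOf (QuotientGroup.mk u : Ωˣ ⧸ H) with hd
  have hdvd : ∀ b : ℕ, u ^ b ∈ H ↔ d ∣ b := by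
    intro b
    rw [hd, orderOf_dvd_iff_pow_eq_one, ← QuotientGroup.mk_pow, QuotientGroup.eq_one_iff]
  have ha0 : a ≠ 0 := by
    rintro rfl
    rw [map_zero] at hw
    exact hw0 (pow_eq_zero_iff hn |>.1 hw)
  have hdn : d ∣ n := by
    rw [← hdvd]
    refine hmemH _ 1 1 a one_ne_zero (one_pow _) ha0 ?_
    rw [one_mul, ← hw]
    simp [hu]
  have hd0 : d ≠ 0 := by
    rintro h0
    rw [h0, zero_dvd_iff] at hdn
    exact hn hdn
  -- the root of unity of order `d` is in `F`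
  have hfix : ∀ τ : Ω ≃ₐ[F] Ω, τ (ζ ^ (n / d)) = ζ ^ (n / d) := by
    intro τ
    obtain ⟨k, hk⟩ := map_rootsOfUnity_eq_pow_self τ (rootsOfUnity.mkOfPowEq ζ hζ.pow_eq_one)
    have hk' : τ ζ = ζ ^ k := by simpa using hk
    have hk1 : τ ζ = ζ ^ (k + n) := by rw [pow_add, hζ.pow_eq_one, mul_one, hk']
    -- `x = w ^ (k + n) / τ w` is in `F`
    have hx : ∀ σ : Ω ≃ₐ[F] Ω, σ (w ^ (k + n) / τ w) = w ^ (k + n) / τ w := by
      intro σ
      have hχ : (σ w / w) ^ n = 1 := by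
        rw [div_pow, ← map_pow, hw, AlgEquiv.commutes, ← hw]
        exact div_self (pow_ne_zero _ hw0)
      obtain ⟨i, -, hi⟩ := hζ.eq_pow_of_pow_eq_one hχ
      have hτχ : τ (σ w / w) = (σ w / w) ^ (k + n) := by
        rw [← hi, map_pow, hk1, ← pow_mul, ← pow_mul, mul_comm]
      have hσw : σ w = (σ w / w) * w := (div_mul_cancel₀ _ hw0).symm
      have hτw0 : τ w ≠ 0 := by simpa using hw0
      have hχ0 : (σ w / w) ≠ 0 := by
        intro h0
        rw [h0, zero_pow hn] at hχ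
        exact zero_ne_one hχ
      rw [map_div₀, map_pow, hcomm σ τ]
      have e1 : τ (σ w) = (σ w / w) ^ (k + n) * τ w := by
        conv_lhs => rw [hσw]
        rw [map_mul, hτχ]
      have e2 : (σ w) ^ (k + n) = (σ w / w) ^ (k + n) * w ^ (k + n) := by
        rw [← mul_pow, ← hσw]
      rw [e1, e2, mul_div_mul_left _ _ (pow_ne_zero _ hχ0)]
    obtain ⟨f, hf⟩ := (InfiniteGalois.mem_range_algebraMap_iff_fixed _).2 hx
    have hτw0 : τ w ≠ 0 := by simpa using hw0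
    have hkn : 1 ≤ k + n := by
      have := Nat.pos_of_ne_zero hn
      omega
    have hdk : d ∣ k + n - 1 := by
      rw [← hdvd]
      have hχ : (τ w / w) ^ n = 1 := by
        rw [div_pow, ← map_pow, hw, AlgEquiv.commutes, ← hw]
        exact div_self (pow_ne_zero _ hw0)
      have hf0 : f ≠ 0 := by
        rintro rfl
        rw [map_zero] at hf
        exact div_ne_zero (pow_ne_zero _ hw0) hτw0 hf.symm
      refine hmemH _ (τ w / w) n f hn hχ hf0 ?_
      rw [hf, hu, Units.val_pow_eq_pow_val, Units.val_mk0]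
      have e1 : w ^ (k + n) = w ^ (k + n - 1) * w := by
        rw [← pow_succ, Nat.sub_add_cancel hkn]
      rw [e1]
      field_simp
    rw [map_pow, hk1, ← pow_mul]
    obtain ⟨e, he⟩ := hdk
    have h1 : (k + n) * (n / d) = n / d + n * e := by
      have h2 : k + n = d * e + 1 := by omega
      obtain ⟨g, hg⟩ := hdn
      rw [h2, hg, Nat.mul_div_cancel_left _ (Nat.pos_of_ne_zero hd0)]
      ring
    rw [h1, pow_add, pow_mul, hζ.pow_eq_one, one_pow, mul_one]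
  obtain ⟨z, hz⟩ := (InfiniteGalois.mem_range_algebraMap_iff_fixed _).2 hfix
  have hprim : IsPrimitiveRoot (ζ ^ (n / d)) d := by
    refine hζ.pow (Nat.pos_of_ne_zero hn) ?_
    rw [Nat.div_mul_cancel hdn]
  have hzprim : IsPrimitiveRoot z d := by
    rw [← hz] at hprim
    exact IsPrimitiveRoot.of_map_of_injective hprim (algebraMap F Ω).injective
  have hdW : d ∣ W := hzprim.dvd_of_pow_eq_one W (hW z d hd0 hzprim.pow_eq_one)
  obtain ⟨ξ, m, f, hm, hξ, hf, hx⟩ := hHmem _ ((hdvd W).2 hdW)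
  refine ⟨ξ, m, f, hm, hξ, hf, ?_⟩
  rw [← hx]
  simp [hu]

end Pool.Agent.K3h47.Rad
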